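import Pool.Agent.U597.EX.Res

/-!
# One-sided bounds: the abstract part
-/

set_option autoImplicit false

namespace Pool.Agent.U597.EX

open Complex MeasureTheory Filter Topology Set
open Pool.Agent.TH339.MP Pool.Agent.N881.RP Pool.Agent.U597.EW
open scoped ComplexConjugate

variable {b : PP → ℂ} {M : ℝ} {Φ : ℝ → ℝ} {A : ℝ}

lemma tm_ac (b : PP → ℂ) (s : ℂ) (p : Nat.Primes) (k : ℕ) :
    tm b s (p, k) = ac b (p, k) * (((p : ℕ) : ℂ) ^ (-(s - 1))) ^ (k + 1) := by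
  unfold tm ac wt
  simp only
  have h1 : ((p : ℕ) : ℂ) ≠ 0 := by exact_mod_cast p.2.ne_zero
  have h2 : ((p : ℕ) : ℂ) ^ (-s) = ((p : ℕ) : ℂ)⁻¹ * ((p : ℕ) : ℂ) ^ (-(s - 1)) := by
    rw [← Complex.cpow_neg_one, ← Complex.cpow_add _ _ h1]
    congr 1
    ring
  rw [h2, Real.rpow_neg_one, mul_pow]
  push_cast
  ring

lemma norm_zp {s : ℂ} (hs : 1 ≤ s.re) (p : Nat.Primes) :
    ‖((p : ℕ) : ℂ) ^ (-(s - 1))‖ ≤ 1 := by
  rw [Complex.norm_natCast_cpow_of_pos p.2.pos]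
  refine Real.rpow_le_one_of_one_le_of_nonpos ?_ ?_
  · have := two_le_prime p
    linarith
  · rw [Complex.neg_re, Complex.sub_re, Complex.one_re]
    linarith

lemma norm_tm_le {s : ℂ} (hs : 1 ≤ s.re) (x : PP) : ‖tm b s x‖ ≤ ‖ac b x‖ := by
  rw [norm_tm]
  unfold ac
  rw [norm_mul, Complex.norm_real, Real.norm_of_nonneg (wt_nonneg 1 x)]
  exact mul_le_mul_of_nonneg_left (wt_anti hs x) (norm_nonneg _)

/-- from the windows to the half-plane -/
theorem half_bound (hb : ∀ x, ‖b x‖ ≤ M / (x.2 + 1 : ℕ)) (hΦ : AEMeasurable Φ)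
    (happ : ∀ ε : ℝ, 0 < ε → ∃ X0 : ℕ, ∀ X : ℕ, X0 ≤ X → ∀ t : ℝ,
      ∫⁻ u in Icc t (t + 1), ENNReal.ofReal |Φ u - (PS b X u).re| ≤ ENNReal.ofReal ε)
    (hA : Mostly A Φ) {s : ℂ} (hs : 1 < s.re) : (FF b s).re ≤ A := by
  have h0 := summable_tm hb hs
  have h1 : HasSum (fun p => ∑' k, tm b s (p, k)) (FF b s) :=
    h0.hasSum.prod_fiberwise fun p => (h0.prod_factor p).hasSum
  have h2 := Complex.hasSum_re h1
  refine hasSum_le_of_sum_le h2 fun P => ?_
  have h3 := local_bound hΦ (summable_ac_fiber hb) happ hA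
    (z := fun p => ((p : ℕ) : ℂ) ^ (-(s - 1))) (fun p => norm_zp hs.le p) P
  rw [Complex.re_sum] at h3
  refine le_trans (le_of_eq ?_) h3
  refine Finset.sum_congr rfl fun p _ => ?_
  congr 1
  exact tsum_congr fun k => tm_ac b s p k

/-- from the half-plane to the edge -/
theorem edge_bound (hrad : ∀ᵐ u : ℝ, Tendsto (fun x : ℝ => (FF b (1 + u * I + x)).re) (𝓝[>] 0)
    (𝓝 (Φ u))) (h : ∀ s : ℂ, 1 < s.re → (FF b s).re ≤ A) : ∀ᵐ u : ℝ, Φ u ≤ A := by
  filter_upwards [hrad] with u hu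
  refine le_of_tendsto hu ?_
  filter_upwards [self_mem_nhdsWithin] with x hx
  have hx' : (0 : ℝ) < x := hx
  exact h _ (by simpa using hx')

/-- from the edge to the windows -/
theorem mostly_of_ae (h : ∀ᵐ u : ℝ, Φ u ≤ A) : Mostly A Φ := by
  intro ε _ R
  refine ⟨0, max R 1, le_max_left _ _, lt_of_lt_of_le one_pos (le_max_right _ _), ?_⟩
  have h1 : volume {u : ℝ | u ∈ Icc (0 : ℝ) (0 + max R 1) ∧ A < Φ u} = 0 := by
    rw [ae_iff] at h
    refine measure_mono_null ?_ h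
    rintro u ⟨_, hu⟩
    exact not_le.2 hu
  rw [h1]
  exact zero_le

/-- the factor at `p`: the terms from `p²` on -/
lemma tail_fiber (hb : ∀ x, ‖b x‖ ≤ M / (x.2 + 1 : ℕ)) (p : Nat.Primes) :
    ∑' k : ℕ, ‖ac b (p, k + 1)‖ ≤ M / 2 * (1 / (((p : ℕ) : ℝ) * (((p : ℕ) : ℝ) - 1))) := by
  have hM := M_nonneg hb
  have h2 := two_le_prime p
  set r : ℝ := ((p : ℕ) : ℝ)⁻¹ with hr
  have hr0 : 0 ≤ r := by positivity
  have hr1 : r < 1 := inv_lt_one_of_one_lt₀ (by linarith)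
  have h3 : HasSum (fun k : ℕ => M / 2 * r ^ 2 * r ^ k) (M / 2 * r ^ 2 * (1 - r)⁻¹) :=
    (hasSum_geometric_of_lt_one hr0 hr1).mul_left _
  have h4 : ∀ k : ℕ, ‖ac b (p, k + 1)‖ ≤ M / 2 * r ^ 2 * r ^ k := by
    intro k
    unfold ac
    rw [norm_mul, Complex.norm_real, Real.norm_of_nonneg (wt_nonneg 1 _)]
    have h5 : wt 1 (p, k + 1) = r ^ 2 * r ^ k := by
      unfold wt
      simp only
      rw [Real.rpow_neg_one, ← hr]
      ring
    have h6 := hb (p, k + 1)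
    have h7 : M / ((k + 1 + 1 : ℕ) : ℝ) ≤ M / 2 := by
      refine div_le_div_of_nonneg_left hM (by norm_num) ?_
      push_cast
      have : (0 : ℝ) ≤ k := Nat.cast_nonneg k
      linarith
    rw [h5, mul_assoc]
    exact mul_le_mul_of_nonneg_right (h6.trans h7) (by positivity)
  have h5 : M / 2 * (1 / (((p : ℕ) : ℝ) * (((p : ℕ) : ℝ) - 1))) = M / 2 * r ^ 2 * (1 - r)⁻¹ := by
    rw [hr]
    have h6 : ((p : ℕ) : ℝ) ≠ 0 := by linarith
    have h7 : ((p : ℕ) : ℝ) - 1 ≠ 0 := by linarith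
    field_simp
  rw [h5, ← h3.tsum_eq]
  refine Summable.tsum_le_tsum h4 ?_ h3.summable
  exact Summable.of_nonneg_of_le (fun _ => norm_nonneg _) h4 h3.summable

lemma primes_sum (P : Finset Nat.Primes) :
    ∑ p ∈ P, 1 / (((p : ℕ) : ℝ) * (((p : ℕ) : ℝ) - 1)) ≤ 1 := by
  classical
  set N : ℕ := P.sup (fun p => (p : ℕ)) with hN
  have h1 : ∀ m : ℕ, ∑ n ∈ Finset.range m, (1 : ℝ) / (((n : ℝ) + 2) * ((n : ℝ) + 1)) =
      1 - 1 / ((m : ℝ) + 1) := by
    intro m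
    induction m with
    | zero => simp
    | succ m ih =>
      rw [Finset.sum_range_succ, ih]
      push_cast
      have h2 : (m : ℝ) + 1 ≠ 0 := by positivity
      have h3 : (m : ℝ) + 2 ≠ 0 := by positivity
      have h4 : (m : ℝ) + 1 + 1 ≠ 0 := by positivity
      field_simp
      ring
  have h2 : ∑ p ∈ P, 1 / (((p : ℕ) : ℝ) * (((p : ℕ) : ℝ) - 1)) =
      ∑ n ∈ P.image (fun p : Nat.Primes => (p : ℕ) - 2), (1 : ℝ) / (((n : ℝ) + 2) * ((n : ℝ) + 1)) := by
    rw [Finset.sum_image]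
    · refine Finset.sum_congr rfl fun p _ => ?_
      have h3 : 2 ≤ (p : ℕ) := p.2.two_le
      have h4 : (((p : ℕ) - 2 : ℕ) : ℝ) = ((p : ℕ) : ℝ) - 2 := by
        push_cast [Nat.cast_sub h3]
        ring
      rw [h4]
      congr 2
      · ring
      · ring
    · intro p _ q _ h
      have h3 : 2 ≤ (p : ℕ) := p.2.two_le
      have h4 : 2 ≤ (q : ℕ) := q.2.two_le
      simp only at h
      exact Subtype.ext (by omega)
  rw [h2]
  refine (Finset.sum_le_sum_of_subset_of_nonneg (t := Finset.range (N + 1)) ?_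
    fun n _ _ => by positivity).trans ?_
  · intro n hn
    rw [Finset.mem_image] at hn
    obtain ⟨p, hp, rfl⟩ := hn
    rw [Finset.mem_range]
    have h3 : (p : ℕ) ≤ N := Finset.le_sup (f := fun p : Nat.Primes => (p : ℕ)) hp
    omega
  · rw [h1]
    have : (0 : ℝ) ≤ 1 / (((N + 1 : ℕ) : ℝ) + 1) := by positivity
    linarith

lemma tail_sum (hb : ∀ x, ‖b x‖ ≤ M / (x.2 + 1 : ℕ)) (P : Finset Nat.Primes) :
    ∑ p ∈ P, ∑' k : ℕ, ‖ac b (p, k + 1)‖ ≤ M / 2 := by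
  have hM := M_nonneg hb
  refine (Finset.sum_le_sum fun p _ => tail_fiber hb p).trans ?_
  rw [← Finset.mul_sum]
  refine mul_le_of_le_one_right (by positivity) (primes_sum P)

/-- the coefficients at the primes -/
lemma prime_sum (hb : ∀ x, ‖b x‖ ≤ M / (x.2 + 1 : ℕ)) (hΦ : AEMeasurable Φ)
    (happ : ∀ ε : ℝ, 0 < ε → ∃ X0 : ℕ, ∀ X : ℕ, X0 ≤ X → ∀ t : ℝ,
      ∫⁻ u in Icc t (t + 1), ENNReal.ofReal |Φ u - (PS b X u).re| ≤ ENNReal.ofReal ε)
    (hA : Mostly A Φ) (P : Finset Nat.Primes) :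
    ∑ p ∈ P, ‖ac b (p, 0)‖ ≤ A + M / 2 := by
  set z : Nat.Primes → ℂ := fun p => conj (ac b (p, 0)) / ‖ac b (p, 0)‖ with hz
  have hz1 : ∀ p, ‖z p‖ ≤ 1 := by
    intro p
    rw [hz]
    simp only [norm_div, RCLike.norm_conj, Complex.norm_real, norm_norm]
    exact div_self_le_one _
  have h1 := local_bound hΦ (summable_ac_fiber hb) happ hA hz1 P
  have h2 : ∀ p ∈ P, ‖ac b (p, 0)‖ - ∑' k : ℕ, ‖ac b (p, k + 1)‖ ≤
      (∑' k : ℕ, ac b (p, k) * z p ^ (k + 1)).re := by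
    intro p _
    have hs := summable_ac_fiber hb p
    have hs' : Summable fun k : ℕ => ‖ac b (p, k + 1)‖ := (summable_nat_add_iff 1).2 hs
    have hle : ∀ k, ‖ac b (p, k) * z p ^ (k + 1)‖ ≤ ‖ac b (p, k)‖ := by
      intro k
      rw [norm_mul, norm_pow]
      exact mul_le_of_le_one_right (norm_nonneg _) (pow_le_one₀ (norm_nonneg _) (hz1 p))
    have hs2 : Summable fun k : ℕ => ac b (p, k) * z p ^ (k + 1) :=
      Summable.of_norm_bounded hs hle
    rw [hs2.tsum_eq_zero_add]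
    have h3 : ac b (p, 0) * z p ^ (0 + 1) = (‖ac b (p, 0)‖ : ℂ) := by
      rw [zero_add, pow_one, hz]
      simp only
      rcases eq_or_ne (ac b (p, 0)) 0 with h | h
      · rw [h]
        simp
      · have h4 : (‖ac b (p, 0)‖ : ℂ) ≠ 0 := by exact_mod_cast norm_ne_zero_iff.2 h
        rw [mul_div_assoc', Complex.mul_conj, Complex.normSq_eq_norm_sq, div_eq_iff h4]
        push_cast
        ring
    rw [h3, Complex.add_re, Complex.ofReal_re]
    have h4 : ‖∑' k : ℕ, ac b (p, k + 1) * z p ^ (k + 1 + 1)‖ ≤ ∑' k : ℕ, ‖ac b (p, k + 1)‖ :=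
      tsum_of_norm_bounded hs'.hasSum fun k => hle (k + 1)
    have h5 := (Complex.abs_re_le_norm _).trans h4
    have h6 := neg_abs_le (∑' k : ℕ, ac b (p, k + 1) * z p ^ (k + 1 + 1)).re
    linarith
  have h3 := Finset.sum_le_sum h2
  rw [Finset.sum_sub_distrib, ← Complex.re_sum] at h3
  have h4 := tail_sum hb P
  linarith

/-- **Absolute convergence on the edge.** -/
theorem summable_edge (hb : ∀ x, ‖b x‖ ≤ M / (x.2 + 1 : ℕ)) (hΦ : AEMeasurable Φ)
    (happ : ∀ ε : ℝ, 0 < ε → ∃ X0 : ℕ, ∀ X : ℕ, X0 ≤ X → ∀ t : ℝ,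
      ∫⁻ u in Icc t (t + 1), ENNReal.ofReal |Φ u - (PS b X u).re| ≤ ENNReal.ofReal ε)
    (hA : Mostly A Φ) :
    Summable (fun x => ‖ac b x‖) ∧ ∑' x, ‖ac b x‖ ≤ A + M := by
  classical
  have h1 : ∀ F : Finset PP, ∑ x ∈ F, ‖ac b x‖ ≤ A + M := by
    intro F
    set P : Finset Nat.Primes := F.image Prod.fst with hP
    set n : ℕ := (F.image Prod.snd).sup id with hn
    have h2 : F ⊆ P ×ˢ Finset.range (n + 1) := by
      intro x hx
      rw [Finset.mem_product, Finset.mem_range]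
      refine ⟨Finset.mem_image_of_mem _ hx, ?_⟩
      have h3 : x.2 ≤ n := Finset.le_sup (f := id) (Finset.mem_image_of_mem Prod.snd hx)
      omega
    refine (Finset.sum_le_sum_of_subset_of_nonneg h2 fun _ _ _ => norm_nonneg _).trans ?_
    rw [Finset.sum_product]
    have h3 : ∀ p ∈ P, ∑ k ∈ Finset.range (n + 1), ‖ac b (p, k)‖ ≤
        ‖ac b (p, 0)‖ + ∑' k : ℕ, ‖ac b (p, k + 1)‖ := by
      intro p _
      rw [Finset.sum_range_succ', add_comm]
      refine add_le_add le_rfl ?_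
      exact Summable.sum_le_tsum _ (fun _ _ => norm_nonneg _)
        ((summable_nat_add_iff 1).2 (summable_ac_fiber hb p))
    refine (Finset.sum_le_sum h3).trans ?_
    rw [Finset.sum_add_distrib]
    have h4 := prime_sum hb hΦ happ hA P
    have h5 := tail_sum hb P
    linarith
  exact ⟨summable_of_sum_le (fun _ => norm_nonneg _) h1,
    Real.tsum_le_of_sum_le (fun _ => norm_nonneg _) h1⟩

theorem continuousOn_FF (hs : Summable (fun x => ‖ac b x‖)) :
    ContinuousOn (FF b) {s : ℂ | 1 ≤ s.re} :=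
  continuousOn_tsum (fun x => (continuous_tm b x).continuousOn) hs fun x _ hs => norm_tm_le hs x

theorem norm_FF_le (hs : Summable (fun x => ‖ac b x‖)) {s : ℂ} (h : 1 ≤ s.re) :
    ‖FF b s‖ ≤ ∑' x, ‖ac b x‖ := tsum_of_norm_bounded hs.hasSum fun x => norm_tm_le h x

theorem edge_value (hrad : ∀ᵐ u : ℝ, Tendsto (fun x : ℝ => (FF b (1 + u * I + x)).re) (𝓝[>] 0)
    (𝓝 (Φ u))) (hs : Summable (fun x => ‖ac b x‖)) : ∀ᵐ u : ℝ, Φ u = (FF b (1 + u * I)).re := by
  filter_upwards [hrad] with u hu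
  refine tendsto_nhds_unique hu ?_
  have h1 : ContinuousWithinAt (FF b) {s : ℂ | 1 ≤ s.re} (1 + u * I) :=
    continuousOn_FF hs _ (by simp)
  have h2 : Tendsto (fun x : ℝ => (1 + u * I + x : ℂ)) (𝓝[>] 0)
      (𝓝[{s : ℂ | 1 ≤ s.re}] (1 + u * I)) := by
    rw [tendsto_nhdsWithin_iff]
    constructor
    · have h4 : Continuous fun x : ℝ => (1 + u * I + x : ℂ) := by fun_prop
      have h5 := h4.tendsto 0
      rw [Complex.ofReal_zero, add_zero] at h5
      exact h5.mono_left nhdsWithin_le_nhds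
    · filter_upwards [self_mem_nhdsWithin] with x hx
      have hx' : (0 : ℝ) < x := hx
      change 1 ≤ (1 + u * I + x : ℂ).re
      simp
      exact hx'.le
  exact (Complex.continuous_re.tendsto _).comp (h1.tendsto.comp h2)

lemma mean_PS_zero (b : PP → ℂ) (X : ℕ) : WM (PS b X) 0 := by
  classical
  refine (WM.sum (TX X) fun x _ => (WM_ee (fr x)).mul (ac b x)).congr (fun u => ?_) ?_
  · rfl
  · refine Finset.sum_eq_zero fun x _ => ?_
    rw [if_neg (fr_neg x).ne, mul_zero]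

/-- **No one-sided function except zero.** -/
theorem vanish_of_nonpos (hΦ : AEMeasurable Φ)
    (happ : ∀ ε : ℝ, 0 < ε → ∃ X0 : ℕ, ∀ X : ℕ, X0 ≤ X → ∀ t : ℝ,
      ∫⁻ u in Icc t (t + 1), ENNReal.ofReal |Φ u - (PS b X u).re| ≤ ENNReal.ofReal ε)
    (h0 : ∀ᵐ u : ℝ, Φ u ≤ 0) (x : PP) : b x = 0 := by
  refine vanish hΦ happ (S := ∅) ?_ (by simp)
  intro ε hε R
  obtain ⟨X, hX⟩ := happ (ε / 4) (by positivity)
  have hap := hX X le_rfl
  obtain ⟨-, C, hC⟩ := mean_PS_zero b X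
  have hC0 : 0 ≤ C := (norm_nonneg _).trans (hC 0 0 le_rfl)
  set T : ℝ := max R (max 1 (2 * C / ε)) with hT
  have hT1 : 1 ≤ T := (le_max_left _ _).trans (le_max_right _ _)
  have hT2 : 2 * C / ε ≤ T := (le_max_right _ _).trans (le_max_right _ _)
  refine ⟨0, T, le_max_left _ _, by linarith, fun _ _ => 0, by simp, ?_⟩
  have hPc : Continuous fun u => (PS b X u).re := Complex.continuous_re.comp (continuous_PS b X)
  set g : ℝ → ℝ := fun u => |Φ u - (PS b X u).re| with hg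
  have hgm : AEMeasurable g := measurable_norm.comp_aemeasurable
    (hΦ.sub hPc.measurable.aemeasurable)
  have hgl : ∫⁻ u in Icc (0 : ℝ) (0 + T), ENNReal.ofReal (g u) ≤
      ENNReal.ofReal ((T + 1) * (ε / 4)) := cover' (by positivity) hap (by linarith) 0
  have hgi : IntegrableOn g (Icc (0 : ℝ) (0 + T)) := by
    refine ⟨hgm.restrict.aestronglyMeasurable, ?_⟩
    rw [hasFiniteIntegral_iff_ofReal (Eventually.of_forall fun u => abs_nonneg _)]
    exact hgl.trans_lt ENNReal.ofReal_lt_top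
  have hPi : IntegrableOn (fun u => (PS b X u).re) (Icc (0 : ℝ) (0 + T)) :=
    hPc.continuousOn.integrableOn_compact isCompact_Icc
  have hgv : ∫ u in Icc (0 : ℝ) (0 + T), g u ≤ (T + 1) * (ε / 4) := by
    rw [integral_eq_lintegral_of_nonneg_ae (Eventually.of_forall fun u => abs_nonneg _)
      hgm.restrict.aestronglyMeasurable]
    exact ENNReal.toReal_le_of_le_ofReal (by positivity) hgl
  have hPv : -C ≤ ∫ u in Icc (0 : ℝ) (0 + T), (PS b X u).re := by
    have h1 := hC 0 T (by linarith)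
    rw [mul_zero, sub_zero, intervalIntegral.integral_of_le (by linarith),
      ← integral_Icc_eq_integral_Ioc] at h1
    have h2 : ∫ u in Icc (0 : ℝ) (0 + T), (PS b X u).re =
        (∫ u in Icc (0 : ℝ) (0 + T), PS b X u).re := by
      have h3 : IntegrableOn (PS b X) (Icc (0 : ℝ) (0 + T)) :=
        (continuous_PS b X).continuousOn.integrableOn_compact isCompact_Icc
      exact Complex.reCLM.integral_comp_comm h3
    rw [h2]
    have h3 := (Complex.abs_re_le_norm _).trans h1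
    have h4 := neg_abs_le (∫ u in Icc (0 : ℝ) (0 + T), PS b X u).re
    linarith
  have hle : ∀ᵐ u ∂(volume.restrict (Icc (0 : ℝ) (0 + T))),
      |Φ u - ∑ p ∈ (∅ : Finset Nat.Primes), (0 : ℝ)| ≤ g u - (PS b X u).re := by
    filter_upwards [ae_restrict_of_ae h0] with u hu
    rw [Finset.sum_empty, sub_zero, abs_of_nonpos hu]
    have := neg_abs_le (Φ u - (PS b X u).re)
    simp only [hg]
    linarith
  have h1 : ∫⁻ u in Icc (0 : ℝ) (0 + T), ENNReal.ofReal
      |Φ u - ∑ p ∈ (∅ : Finset Nat.Primes), (0 : ℝ)| ≤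
      ∫⁻ u in Icc (0 : ℝ) (0 + T), ENNReal.ofReal (g u - (PS b X u).re) :=
    lintegral_mono_ae (hle.mono fun u hu => ENNReal.ofReal_le_ofReal hu)
  refine h1.trans ?_
  have hsub : IntegrableOn (fun u => g u - (PS b X u).re) (Icc (0 : ℝ) (0 + T)) := hgi.sub hPi
  rw [← ofReal_integral_eq_lintegral_ofReal hsub
    (hle.mono fun u hu => (abs_nonneg _).trans hu)]
  refine ENNReal.ofReal_le_ofReal ?_
  rw [integral_sub hgi hPi]
  have h2 : 2 * C ≤ T * ε := by
    rwa [div_le_iff₀ hε] at hT2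
  nlinarith

end Pool.Agent.U597.EX
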