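import Pool.Agent.U597.EW.Defs

/-!
# One-sided bounds on the edge: definitions

The definitions of `IsFrobenius`, `IsEulerSystem`, `localFactor`, `LFun`, `edgePoint` and `angle` are in
`Pool/Agent/TH958/BV/Defs.lean`, those of `Good`, `above`, `logModulus` and `Continues` in
`Pool/Agent/U597/EW/Defs.lean`.
-/

set_option autoImplicit false

namespace Pool.Agent.U597.EX

open NumberField IsDedekindDomain MeasureTheory Filter Topology Polynomial Set
open Pool.Agent.TH958.BV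

/-- In all sufficiently long windows (intervals) `[t, t + T]` of the line, `Φ > A` on a set of
measure at least `δ T`, with a constant `δ > 0`. -/
def OftenAbove (A : ℝ) (Φ : ℝ → ℝ) : Prop :=
  ∃ δ : ℝ, 0 < δ ∧ ∃ T₀ : ℝ, ∀ t T : ℝ, T₀ ≤ T →
    ENNReal.ofReal (δ * T) ≤ volume {u : ℝ | u ∈ Icc t (t + T) ∧ A < Φ u}

/-- `∑ c_j log |L_j(s + i_j/2)|`, the logarithm of the modulus of the product of the L-functions with
the exponents `c_j`. -/
noncomputable def logProduct {ι : Type} [Fintype ι] {K : ι → Type} [∀ j, Field (K j)]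
    [∀ j, NumberField (K j)] (B : ∀ j, HeightOneSpectrum (𝓞 (K j)) → ℂ[X]) (i : ι → ℕ)
    (c : ι → ℝ) (s : ℂ) : ℝ :=
  ∑ j, c j * Real.log ‖LFun (B j) (s + (i j : ℂ) / 2)‖

/-- `∑ c_j log |F_{j,p}(s)|`, where `F_{j,p}(s)` is the product of the Euler factors of `L_j(s + i_j/2)`
at the primes of `K_j` above the prime number `p`. -/
noncomputable def logLocal {ι : Type} [Fintype ι] {K : ι → Type} [∀ j, Field (K j)]
    [∀ j, NumberField (K j)] (B : ∀ j, HeightOneSpectrum (𝓞 (K j)) → ℂ[X]) (i : ι → ℕ)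
    (c : ι → ℝ) (p : Nat.Primes) (s : ℂ) : ℝ :=
  ∑ j, c j * Real.log ‖Pool.Agent.U597.EW.above (B j) p (s + (i j : ℂ) / 2)‖

/-- `∑ |c_j| [K_j : ℚ] N_j`. -/
noncomputable def size {ι : Type} [Fintype ι] (K : ι → Type) [∀ j, Field (K j)]
    [∀ j, NumberField (K j)] (N : ι → ℕ) (c : ι → ℝ) : ℝ :=
  ∑ j, |c j| * (Module.finrank ℚ (K j) * N j)

end Pool.Agent.U597.EX
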