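import Pool.Agent.U597.EX.Defs

/-!
# Orders on the edge: definitions
-/

set_option autoImplicit false

namespace Pool.Agent.U597.EX

open NumberField IsDedekindDomain MeasureTheory Filter Topology Polynomial Set
open Pool.Agent.TH958.BV Pool.Agent.U597.EW

open Classical in
/-- The Euler product over the good primes: those at which the Euler factor is the one given by the
eigenvalues of Frobenius. -/
noncomputable def LGood {K : Type} [Field K] [NumberField K] {n : ℕ}
    (X : Set (MvPolynomial (Fin n) (𝓞 K))) (d i N : ℕ) (B : HeightOneSpectrum (𝓞 K) → ℂ[X])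
    (s : ℂ) : ℂ :=
  ∏' v : HeightOneSpectrum (𝓞 K), if Good X d i N B v then localFactor B v s else 1

/-- The function `L` on the half-plane `Re s > i/2 + 1` has a meromorphic continuation to a
neighbourhood of the point `i/2 + 1 + it` of the edge, and its order at this point is `m` (a zero if
`m > 0`, a pole if `m < 0`). -/
def HasOrder (L : ℂ → ℂ) (i : ℕ) (t : ℝ) (m : ℤ) : Prop :=
  ∃ f : ℂ → ℂ, MeromorphicAt f (edgePoint i t) ∧
    (∀ᶠ s in 𝓝[{s : ℂ | (i : ℝ) / 2 + 1 < s.re}] (edgePoint i t), f s = L s) ∧
    meromorphicOrderAt f (edgePoint i t) = m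

end Pool.Agent.U597.EX
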