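import Pool.Agent.U597.EX.Abs
import Pool.Agent.U597.EX.Defs
import Pool.Agent.U597.EW.Fam

/-!
# One-sided bounds on the edge for families of L-functions
-/

set_option autoImplicit false

namespace Pool.Agent.U597.EX

open Complex MeasureTheory Filter Topology Set NumberField IsDedekindDomain Polynomial
open Pool.Agent.TH339.MP Pool.Agent.N881.RP Pool.Agent.R409.EV Pool.Agent.U597.EW
open Pool.Agent.TH958.BV (IsEulerSystem localFactor LFun edgePoint angle)

variable {ι : Type} [Fintype ι]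
variable {K : ι → Type} [∀ j, Field (K j)] [∀ j, NumberField (K j)] {n : ι → ℕ}
  {X : ∀ j, Set (MvPolynomial (Fin (n j)) (𝓞 (K j)))} {d i N : ι → ℕ}
  {B : ∀ j, HeightOneSpectrum (𝓞 (K j)) → ℂ[X]}
  (hB : ∀ j, IsEulerSystem (X j) (d j) (i j) (N j) (B j)) (c : ι → ℝ)
  (hg : ∀ (j : ι) (v : HeightOneSpectrum (𝓞 (K j))),
    Good (X j) (d j) (i j) (N j) (B j) v ∨ B j v = 1)

omit [Fintype ι] in
include hg in
lemma bad_one (j : ι) {v : HeightOneSpectrum (𝓞 (K j))} (hv : v ∈ bad (hB j)) : B j v = 1 := by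
  rcases hg j v with h | h
  · exact absurd h (not_good_of_mem (hB j) hv)
  · exact h

omit [Fintype ι] in
include hg in
lemma DD_one (j : ι) (s : ℂ) : DD (hB j) s = 1 := by
  unfold DD
  refine Finset.prod_eq_one fun v hv => ?_
  rw [bad_one hB hg j hv, eval_one]

omit [Fintype ι] in
include hg in
lemma L_exp (j : ι) {s : ℂ} (hs : 1 < s.re) :
    LFun (B j) (s + (i j : ℂ) / 2) = Complex.exp (FF (bj hB j) s) := by
  rw [LFun_eq (hB j) hs, DD_one hB hg, inv_one, one_mul]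
  rfl

omit [Fintype ι] in
include hg in
lemma log_L (j : ι) {s : ℂ} (hs : 1 < s.re) :
    Real.log ‖LFun (B j) (s + (i j : ℂ) / 2)‖ = (FF (bj hB j) s).re := by
  rw [L_exp hB hg j hs, Complex.norm_exp, Real.log_exp]

lemma norm_comb (x : PP) : ‖comb (bj hB) c x‖ ≤ size K N c / (x.2 + 1 : ℕ) := by
  unfold comb size
  rw [Finset.sum_div]
  refine norm_sum_le_of_le _ fun j _ => ?_
  rw [norm_mul, Complex.norm_real, Real.norm_eq_abs, mul_div_assoc]
  exact mul_le_mul_of_nonneg_left (norm_bj hB j x) (abs_nonneg _)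

lemma FF_comb {s : ℂ} (hs : 1 < s.re) :
    FF (comb (bj hB) c) s = ∑ j, (c j : ℂ) * FF (bj hB j) s := by
  have h1 : HasSum (fun x => ∑ j, (c j : ℂ) * tm (bj hB j) s x)
      (∑ j, (c j : ℂ) * FF (bj hB j) s) :=
    hasSum_sum fun j _ => ((summable_tm (norm_bj hB j) hs).hasSum).mul_left _
  have h2 : (fun x => ∑ j, (c j : ℂ) * tm (bj hB j) s x) = tm (comb (bj hB) c) s := by
    funext x
    unfold tm comb
    rw [Finset.sum_mul]
    refine Finset.sum_congr rfl fun j _ => ?_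
    ring
  rw [h2] at h1
  exact h1.tsum_eq

include hg in
lemma logProduct_eq {s : ℂ} (hs : 1 < s.re) :
    logProduct B i c s = (FF (comb (bj hB) c) s).re := by
  rw [FF_comb hB c hs, Complex.re_sum]
  unfold logProduct
  refine Finset.sum_congr rfl fun j _ => ?_
  rw [log_L hB hg j hs, Complex.re_ofReal_mul]

include hg in
lemma logModulus_eq (u : ℝ) :
    logModulus c (fun j => bdry (hB j)) u = Phi0 (bj hB) c u := by
  unfold logModulus Phi0
  refine Finset.sum_congr rfl fun j _ => ?_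
  congr 1
  change Real.log ‖(DD (hB j) (1 + u * I))⁻¹ * Complex.exp (bl (bj hB j) u)‖ = _
  rw [DD_one hB hg, inv_one, one_mul, Complex.norm_exp, Real.log_exp]

lemma radial : ∀ᵐ u : ℝ, Tendsto (fun x : ℝ => (FF (comb (bj hB) c) (1 + u * I + x)).re) (𝓝[>] 0)
    (𝓝 (Phi0 (bj hB) c u)) := by
  have h0 : ∀ᵐ u : ℝ, ∀ j, u ∉ Pool.Agent.W350.Edge.divSet (ap (bj hB j)) :=
    ae_all_iff.2 fun j => ae_notMem (norm_bj hB j)
  filter_upwards [h0] with u hu
  have h1 : ∀ j, Tendsto (fun x : ℝ => (FF (bj hB j) (1 + u * I + x)).re) (𝓝[>] 0)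
      (𝓝 (bl (bj hB j) u).re) := by
    intro j
    have h2 := bl_angle (norm_bj hB j) (hu j) 1
    refine (Complex.continuous_re.tendsto _).comp (h2.comp (f := fun x : ℝ => (x : ℂ)) ?_)
    rw [tendsto_nhdsWithin_iff]
    constructor
    · exact (Complex.continuous_ofReal.tendsto' _ _ Complex.ofReal_zero).mono_left
        nhdsWithin_le_nhds
    · filter_upwards [self_mem_nhdsWithin] with x hx
      have hx' : (0 : ℝ) < x := hx
      refine ⟨by simpa using hx', ?_⟩
      rw [Complex.norm_real, Real.norm_of_nonneg hx'.le, Complex.ofReal_re, one_mul]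
  have h3 : Tendsto (fun x : ℝ => ∑ j, c j * (FF (bj hB j) (1 + u * I + x)).re) (𝓝[>] 0)
      (𝓝 (Phi0 (bj hB) c u)) := tendsto_finsetSum _ fun j _ => (h1 j).const_mul _
  refine h3.congr' ?_
  filter_upwards [self_mem_nhdsWithin] with x hx
  have hx' : (0 : ℝ) < x := hx
  rw [FF_comb hB c (by simpa using hx'), Complex.re_sum]
  refine Finset.sum_congr rfl fun j _ => ?_
  rw [Complex.re_ofReal_mul]

lemma mostly_of_not {A : ℝ} {Φ : ℝ → ℝ} (h : ¬ OftenAbove A Φ) : Mostly A Φ := by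
  intro ε hε R
  by_contra hcon
  push Not at hcon
  refine h ⟨ε, hε, max R 1, fun t T hT => ?_⟩
  exact (hcon t T ((le_max_left _ _).trans hT)
    (lt_of_lt_of_le one_pos ((le_max_right _ _).trans hT))).le

lemma not_often_of_ae {A : ℝ} {Φ : ℝ → ℝ} (h : ∀ᵐ u : ℝ, Φ u ≤ A) : ¬ OftenAbove A Φ := by
  rintro ⟨δ, hδ, T0, hT⟩
  have h1 := hT 0 (max T0 1) (le_max_left _ _)
  have h2 : volume {u : ℝ | u ∈ Icc (0 : ℝ) (0 + max T0 1) ∧ A < Φ u} = 0 := by
    rw [ae_iff] at h
    refine measure_mono_null ?_ h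
    rintro u ⟨_, hu⟩
    exact not_le.2 hu
  rw [h2, nonpos_iff_eq_zero, ENNReal.ofReal_eq_zero] at h1
  have h3 : (0 : ℝ) < max T0 1 := lt_of_lt_of_le one_pos (le_max_right _ _)
  nlinarith

include hg in
/-- the three forms of the upper bound -/
theorem bounds (A : ℝ) :
    (¬ OftenAbove A (logModulus c fun j => bdry (hB j)) ↔
      ∀ᵐ u : ℝ, logModulus c (fun j => bdry (hB j)) u ≤ A) ∧
    (¬ OftenAbove A (logModulus c fun j => bdry (hB j)) ↔
      ∀ s : ℂ, 1 < s.re → logProduct B i c s ≤ A) := by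
  have he : (logModulus c fun j => bdry (hB j)) = Phi0 (bj hB) c :=
    funext fun u => logModulus_eq hB c hg u
  rw [he]
  have h1 : ¬ OftenAbove A (Phi0 (bj hB) c) → ∀ s : ℂ, 1 < s.re → logProduct B i c s ≤ A := by
    intro h s hs
    rw [logProduct_eq hB c hg hs]
    exact half_bound (norm_comb hB c) (aem_Phi0 c (norm_bj hB)) (approx c (norm_bj hB))
      (mostly_of_not h) hs
  have h2 : (∀ s : ℂ, 1 < s.re → logProduct B i c s ≤ A) → ∀ᵐ u : ℝ, Phi0 (bj hB) c u ≤ A := by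
    intro h
    refine edge_bound (radial hB c) fun s hs => ?_
    rw [← logProduct_eq hB c hg hs]
    exact h s hs
  exact ⟨⟨fun h => h2 (h1 h), not_often_of_ae⟩, ⟨h1, fun h => not_often_of_ae (h2 h)⟩⟩

include hg in
/-- absolute convergence on the edge -/
theorem extend {A : ℝ} (h : ∀ s : ℂ, 1 < s.re → logProduct B i c s ≤ A) :
    ContinuousOn (FF (comb (bj hB) c)) {s : ℂ | 1 ≤ s.re} ∧
      (∀ s : ℂ, 1 ≤ s.re → ‖FF (comb (bj hB) c) s‖ ≤ A + size K N c) ∧
      ∀ᵐ u : ℝ, logModulus c (fun j => bdry (hB j)) u = (FF (comb (bj hB) c) (1 + u * I)).re := by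
  have hm : Mostly A (Phi0 (bj hB) c) := by
    refine mostly_of_ae ?_
    refine edge_bound (radial hB c) fun s hs => ?_
    rw [← logProduct_eq hB c hg hs]
    exact h s hs
  obtain ⟨h1, h2⟩ := summable_edge (norm_comb hB c) (aem_Phi0 c (norm_bj hB))
    (approx c (norm_bj hB)) hm
  refine ⟨continuousOn_FF h1, fun s hs => (norm_FF_le h1 hs).trans h2, ?_⟩
  filter_upwards [edge_value (radial hB c) h1] with u hu
  rw [logModulus_eq hB c hg, hu]

include hg in
theorem zero_of_nonpos (h : ∀ s : ℂ, 1 < s.re → logProduct B i c s ≤ 0) (x : PP) :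
    comb (bj hB) c x = 0 := by
  refine vanish_of_nonpos (aem_Phi0 c (norm_bj hB)) (approx c (norm_bj hB)) ?_ x
  refine edge_bound (radial hB c) fun s hs => ?_
  rw [← logProduct_eq hB c hg hs]
  exact h s hs

lemma FF_zero (h : ∀ x, comb (bj hB) c x = 0) (s : ℂ) : FF (comb (bj hB) c) s = 0 := by
  unfold FF tm
  simp [h]

omit [Fintype ι] in
include hB hg in
lemma above_exp (j : ι) (p : Nat.Primes) {s : ℂ} (hs : 1 ≤ s.re) :
    above (B j) p (s + (i j : ℂ) / 2) =
      Complex.exp (∑ v ∈ (Sp p : Finset (HeightOneSpectrum (𝓞 (K j)))),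
        lv (be (X j) (d j) (i j) (N j) (B j)) v s) := by
  rw [above_split (hB j) p hs]
  have h1 : ∏ v ∈ (Sp p : Finset (HeightOneSpectrum (𝓞 (K j)))), bfac (hB j) v s = 1 := by
    refine Finset.prod_eq_one fun v _ => ?_
    unfold bfac
    split_ifs with hv
    · rw [bad_one hB hg j hv, eval_one, inv_one]
    · rfl
  rw [h1, one_mul]

include hg in
/-- the relation between the Euler factors -/
theorem euler_relation (h : ∀ x, comb (bj hB) c x = 0) (p : Nat.Primes) {s : ℂ} (hs : 1 < s.re) :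
    ∏ j, ‖above (B j) p (s + (i j : ℂ) / 2)‖ ^ c j = 1 := by
  have h1 := lv_vanish hB c (p := p) (fun k => h (p, k)) hs.le
  have h2 : ∏ j, ‖above (B j) p (s + (i j : ℂ) / 2)‖ ^ c j = Real.exp (∑ j, (c j : ℂ) *
      ∑ v ∈ (Sp p : Finset (HeightOneSpectrum (𝓞 (K j)))),
        lv (be (X j) (d j) (i j) (N j) (B j)) v s).re := by
    rw [Complex.re_sum, Real.exp_sum]
    refine Finset.prod_congr rfl fun j _ => ?_
    rw [above_exp hB hg j p hs.le, Complex.norm_exp, Complex.re_ofReal_mul,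
      ← Real.exp_mul, mul_comm]
  rw [h2, h1, Complex.zero_re, Real.exp_zero]

include hg in
theorem product_exp (m : ι → ℤ) {s : ℂ} (hs : 1 < s.re) :
    ∏ j, LFun (B j) (s + (i j : ℂ) / 2) ^ m j =
      Complex.exp (FF (comb (bj hB) fun j => (m j : ℝ)) s) := by
  rw [FF_comb hB _ hs, Complex.exp_sum]
  refine Finset.prod_congr rfl fun j _ => ?_
  rw [L_exp hB hg j hs, ← Complex.exp_int_mul]
  push_cast
  rfl

include hB hg in
/-- **Continuation by comparison.** -/
theorem continues_of_product {m : ι → ℤ}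
    (hp : ∀ s : ℂ, 1 < s.re → ∏ j, LFun (B j) (s + (i j : ℂ) / 2) ^ m j = 1)
    {U : Set ℂ} {k : ι} (hk : m k = 1 ∨ m k = -1)
    (hc : ∀ j, j ≠ k → Continues (B j) (i j) U) : Continues (B k) (i k) U := by
  classical
  have hc' : ∀ j : ι, ∃ Λ : ℂ → ℂ, j ≠ k → (∀ s ∈ U, MeromorphicAt Λ s) ∧
      ∀ s : ℂ, 1 < s.re → Λ s = LFun (B j) (s + (i j : ℂ) / 2) := by
    intro j
    by_cases h : j = k
    · exact ⟨0, fun h' => absurd h h'⟩
    · obtain ⟨Λ, hΛ⟩ := hc j h
      exact ⟨Λ, fun _ => hΛ⟩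
  choose Λ hΛ using hc'
  set F : ℂ → ℂ := fun s => ∏ j ∈ Finset.univ.erase k, (Λ j s ^ m j)⁻¹ with hF
  have hFm : ∀ s ∈ U, MeromorphicAt F s := by
    intro s hs
    refine MeromorphicAt.fun_prod fun j hj => ?_
    exact (((hΛ j (Finset.ne_of_mem_erase hj)).1 s hs).zpow _).inv
  have hFe : ∀ s : ℂ, 1 < s.re → F s = LFun (B k) (s + (i k : ℂ) / 2) ^ m k := by
    intro s hs
    have hne : ∀ j, LFun (B j) (s + (i j : ℂ) / 2) ^ m j ≠ 0 := by
      intro j
      rw [L_exp hB hg j hs]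
      exact zpow_ne_zero _ (Complex.exp_ne_zero _)
    have h1 := hp s hs
    rw [← Finset.mul_prod_erase _ _ (Finset.mem_univ k)] at h1
    have h2 : F s = (∏ j ∈ Finset.univ.erase k, LFun (B j) (s + (i j : ℂ) / 2) ^ m j)⁻¹ := by
      rw [hF, ← Finset.prod_inv_distrib]
      refine Finset.prod_congr rfl fun j hj => ?_
      rw [(hΛ j (Finset.ne_of_mem_erase hj)).2 s hs]
    rw [h2]
    exact (eq_inv_of_mul_eq_one_left h1).symm
  rcases hk with h | h
  · refine ⟨F, hFm, fun s hs => ?_⟩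
    rw [hFe s hs, h, zpow_one]
  · refine ⟨fun s => (F s)⁻¹, fun s hs => (hFm s hs).inv, fun s hs => ?_⟩
    simp only
    rw [hFe s hs, h, zpow_neg, zpow_one, inv_inv]

end Pool.Agent.U597.EX
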