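import Pool.Agent.U597.EX.Fam

/-!
# One-sided bounds: the local form
-/

set_option autoImplicit false

namespace Pool.Agent.U597.EX

open Complex MeasureTheory Filter Topology Set NumberField IsDedekindDomain Polynomial
open Pool.Agent.TH339.MP Pool.Agent.N881.RP Pool.Agent.R409.EV Pool.Agent.U597.EW
open Pool.Agent.TH958.BV (IsEulerSystem localFactor LFun edgePoint angle)

variable {ι : Type} [Fintype ι]
variable {K : ι → Type} [∀ j, Field (K j)] [∀ j, NumberField (K j)] {n : ι → ℕ}
  {X : ∀ j, Set (MvPolynomial (Fin (n j)) (𝓞 (K j)))} {d i N : ι → ℕ}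
  {B : ∀ j, HeightOneSpectrum (𝓞 (K j)) → ℂ[X]}
  (hB : ∀ j, IsEulerSystem (X j) (d j) (i j) (N j) (B j)) (c : ι → ℝ)
  (hg : ∀ (j : ι) (v : HeightOneSpectrum (𝓞 (K j))),
    Good (X j) (d j) (i j) (N j) (B j) v ∨ B j v = 1)

include hg in
lemma logLocal_eq (p : Nat.Primes) {s : ℂ} (hs : 1 ≤ s.re) :
    logLocal B i c p s = (∑' k : ℕ, tm (comb (bj hB) c) s (p, k)).re := by
  rw [(comb_fiber hB c p hs).tsum_eq, Complex.re_sum]
  unfold logLocal
  refine Finset.sum_congr rfl fun j _ => ?_
  rw [above_exp hB hg j p hs, Complex.norm_exp, Real.log_exp, Complex.re_ofReal_mul]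

include hB hg in
/-- the local form of the bound -/
theorem local_iff (A : ℝ) :
    (∀ s : ℂ, 1 < s.re → logProduct B i c s ≤ A) ↔
      ∀ (P : Finset Nat.Primes) (w : Nat.Primes → ℂ), (∀ p, 1 ≤ (w p).re) →
        ∑ p ∈ P, logLocal B i c p (w p) ≤ A := by
  constructor
  · intro h P w hw
    have hm : Mostly A (Phi0 (bj hB) c) := by
      refine mostly_of_ae ?_
      refine edge_bound (radial hB c) fun s hs => ?_
      rw [← logProduct_eq hB c hg hs]
      exact h s hs
    have h1 := local_bound (aem_Phi0 c (norm_bj hB)) (summable_ac_fiber (norm_comb hB c))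
      (approx c (norm_bj hB)) hm (z := fun p => ((p : ℕ) : ℂ) ^ (-(w p - 1)))
      (fun p => norm_zp (hw p) p) P
    rw [Complex.re_sum] at h1
    refine le_trans (le_of_eq ?_) h1
    refine Finset.sum_congr rfl fun p _ => ?_
    rw [logLocal_eq hB c hg p (hw p)]
    congr 1
    exact tsum_congr fun k => tm_ac _ _ p k
  · intro h s hs
    rw [logProduct_eq hB c hg hs]
    have h0 := summable_tm (norm_comb hB c) hs
    have h1 : HasSum (fun p => ∑' k, tm (comb (bj hB) c) s (p, k)) (FF (comb (bj hB) c) s) :=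
      h0.hasSum.prod_fiberwise fun p => (h0.prod_factor p).hasSum
    refine hasSum_le_of_sum_le (Complex.hasSum_re h1) fun P => ?_
    refine le_trans (le_of_eq ?_) (h P (fun _ => s) fun _ => hs.le)
    refine Finset.sum_congr rfl fun p _ => ?_
    rw [logLocal_eq hB c hg p hs.le]

include hg in
/-- the relation between the Euler factors with integral exponents -/
theorem euler_relation_int (m : ι → ℤ) (h : ∀ x, comb (bj hB) (fun j => (m j : ℝ)) x = 0)
    (p : Nat.Primes) {s : ℂ} (hs : 1 < s.re) :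
    ∏ j, above (B j) p (s + (i j : ℂ) / 2) ^ m j = 1 := by
  have h1 := lv_vanish hB (fun j => (m j : ℝ)) (p := p) (fun k => h (p, k)) hs.le
  have h2 : ∏ j, above (B j) p (s + (i j : ℂ) / 2) ^ m j = Complex.exp (∑ j, ((m j : ℝ) : ℂ) *
      ∑ v ∈ (Sp p : Finset (HeightOneSpectrum (𝓞 (K j)))),
        lv (be (X j) (d j) (i j) (N j) (B j)) v s) := by
    rw [Complex.exp_sum]
    refine Finset.prod_congr rfl fun j _ => ?_
    rw [above_exp hB hg j p hs.le, ← Complex.exp_int_mul]
    push_cast
    rfl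
  rw [h2, h1, Complex.exp_zero]

end Pool.Agent.U597.EX
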