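import Pool.Agent.U597.EW.Win

/-!
# Means over windows of products of kernels in the primes
-/

set_option autoImplicit false

namespace Pool.Agent.U597.EX

open Complex MeasureTheory Filter Topology Set
open Pool.Agent.TH339.MP Pool.Agent.N881.RP Pool.Agent.U597.EW
open scoped ComplexConjugate

/-- `f` is continuous and its integral over all windows of length `T` is `μ T` up to a bounded error -/
def WM (f : ℝ → ℂ) (μ : ℂ) : Prop :=
  Continuous f ∧ ∃ C : ℝ, ∀ t T : ℝ, 0 ≤ T → ‖(∫ u in t..(t + T), f u) - T * μ‖ ≤ C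

lemma WM.add {f g : ℝ → ℂ} {μ ν : ℂ} (hf : WM f μ) (hg : WM g ν) :
    WM (fun u => f u + g u) (μ + ν) := by
  obtain ⟨hf0, C, hC⟩ := hf
  obtain ⟨hg0, D, hD⟩ := hg
  refine ⟨hf0.add hg0, C + D, fun t T hT => ?_⟩
  rw [intervalIntegral.integral_add (hf0.intervalIntegrable _ _) (hg0.intervalIntegrable _ _)]
  have h1 := hC t T hT
  have h2 := hD t T hT
  have h3 : (∫ u in t..(t + T), f u) + (∫ u in t..(t + T), g u) - T * (μ + ν) =
      ((∫ u in t..(t + T), f u) - T * μ) + ((∫ u in t..(t + T), g u) - T * ν) := by ring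
  rw [h3]
  exact (norm_add_le _ _).trans (add_le_add h1 h2)

lemma WM.mul {f : ℝ → ℂ} {μ : ℂ} (hf : WM f μ) (c : ℂ) : WM (fun u => c * f u) (c * μ) := by
  obtain ⟨hf0, C, hC⟩ := hf
  refine ⟨continuous_const.mul hf0, ‖c‖ * C, fun t T hT => ?_⟩
  rw [intervalIntegral.integral_const_mul]
  have h3 : c * (∫ u in t..(t + T), f u) - T * (c * μ) =
      c * ((∫ u in t..(t + T), f u) - T * μ) := by ring
  rw [h3, norm_mul]
  exact mul_le_mul_of_nonneg_left (hC t T hT) (norm_nonneg _)

lemma WM.zero : WM (fun _ => 0) 0 := ⟨continuous_const, 0, fun t T _ => by simp⟩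

lemma WM.sum {ι : Type*} (s : Finset ι) {f : ι → ℝ → ℂ} {μ : ι → ℂ} (h : ∀ i ∈ s, WM (f i) (μ i)) :
    WM (fun u => ∑ i ∈ s, f i u) (∑ i ∈ s, μ i) := by
  classical
  induction s using Finset.induction_on with
  | empty => simpa using WM.zero
  | insert i s hi ih =>
    simp only [Finset.sum_insert hi]
    exact (h i (Finset.mem_insert_self _ _)).add (ih fun j hj => h j (Finset.mem_insert_of_mem hj))

lemma WM.congr {f g : ℝ → ℂ} {μ ν : ℂ} (h : WM f μ) (hfg : ∀ u, f u = g u) (hμ : μ = ν) :
    WM g ν := by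
  have : f = g := funext hfg
  subst this
  subst hμ
  exact h

open Classical in
lemma WM_ee (m : ℝ) : WM (ee m) (if m = 0 then 1 else 0) := by
  refine ⟨continuous_ee m, ?_⟩
  by_cases h : m = 0
  · subst h
    refine ⟨0, fun t T _ => ?_⟩
    simp_rw [ee_zero_left]
    simp
  · refine ⟨2 / |m|, fun t T _ => ?_⟩
    rw [if_neg h, mul_zero, sub_zero]
    exact norm_integral_ee h t T

/-- the logarithm of the positive rational number with the exponents `v` -/
noncomputable def lam (v : Nat.Primes →₀ ℤ) : ℝ := v.sum fun p k => (k : ℝ) * Real.log (p : ℕ)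

lemma lam_sub_single (v : Nat.Primes →₀ ℤ) (p : Nat.Primes) (k : ℤ) :
    lam (v - Finsupp.single p k) = lam v - k * Real.log (p : ℕ) := by
  unfold lam
  rw [Finsupp.sum_sub_index (fun p a b => by push_cast; ring), Finsupp.sum_single_index (by simp)]

lemma lam_single (p : Nat.Primes) (k : ℤ) : lam (Finsupp.single p k) = k * Real.log (p : ℕ) := by
  unfold lam
  rw [Finsupp.sum_single_index (by simp)]

lemma lam_eq_zero {v : Nat.Primes →₀ ℤ} (h : lam v = 0) : v = 0 := by
  classical
  ext q
  rw [Finsupp.zero_apply]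
  set s : Finset Nat.Primes := insert q v.support with hs
  have h0 : ∑ p ∈ s, (v p : ℝ) * Real.log (p : ℕ) = 0 := by
    rw [← h, lam, Finsupp.sum]
    symm
    refine Finset.sum_subset (Finset.subset_insert _ _) fun p _ hp => ?_
    rw [Finsupp.notMem_support_iff.1 hp]
    simp
  have h3 : ∑ p ∈ s, (((v p).toNat : ℕ) : ℝ) * Real.log (p : ℕ) =
      ∑ p ∈ s, (((-v p).toNat : ℕ) : ℝ) * Real.log (p : ℕ) := by
    rw [← sub_eq_zero, ← Finset.sum_sub_distrib, ← h0]
    refine Finset.sum_congr rfl fun p _ => ?_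
    rw [← sub_mul]
    congr 1
    have : ((v p).toNat : ℤ) - ((-v p).toNat : ℤ) = v p := by omega
    exact_mod_cast this
  have h4 : ∀ e : Nat.Primes → ℕ, ∑ p ∈ s, (e p : ℝ) * Real.log (p : ℕ) =
      Real.log ((∏ p ∈ s, (p : ℕ) ^ e p : ℕ) : ℝ) := by
    intro e
    push_cast
    rw [Real.log_prod (fun p _ => (pow_pos (prime_pos p) _).ne')]
    refine Finset.sum_congr rfl fun p _ => ?_
    rw [Real.log_pow]
  rw [h4, h4] at h3
  have hpp : ∀ e : Nat.Primes → ℕ, 0 < ∏ p ∈ s, (p : ℕ) ^ e p := fun e =>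
    Finset.prod_pos (fun p _ => pow_pos p.2.pos _)
  have h5 : ∏ p ∈ s, (p : ℕ) ^ (v p).toNat = ∏ p ∈ s, (p : ℕ) ^ (-v p).toNat := by
    have := Real.log_injOn_pos (Set.mem_Ioi.2 (by exact_mod_cast hpp _))
      (Set.mem_Ioi.2 (by exact_mod_cast hpp _)) h3
    exact_mod_cast this
  have h6 : ∀ e : Nat.Primes → ℕ, (∏ p ∈ s, (p : ℕ) ^ e p).factorization (q : ℕ) = e q := by
    intro e
    rw [Nat.factorization_prod (fun p _ => (pow_pos p.2.pos _).ne')]
    rw [Finsupp.finsetSum_apply, Finset.sum_eq_single q]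
    · rw [q.2.factorization_pow]
      simp
    · intro p _ hpq
      rw [p.2.factorization_pow, Finsupp.single_apply, if_neg]
      exact fun h => hpq (Subtype.ext h)
    · intro h
      exact absurd (Finset.mem_insert_self _ _) h
  have h7 := congrArg (fun n => n.factorization (q : ℕ)) h5
  simp only [h6] at h7
  omega

variable (n : ℕ) (z : Nat.Primes → ℂ)

/-- the normalization -/
noncomputable def Sn (p : Nat.Primes) : ℝ := ∑ a ∈ Finset.range n, (‖z p‖ ^ 2) ^ a

/-- the factor of the kernel at `p` -/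
noncomputable def G (p : Nat.Primes) (u : ℝ) : ℂ :=
  ∑ a ∈ Finset.range n, conj (z p) ^ a * ee (-(a * Real.log (p : ℕ))) u

/-- the kernel -/
noncomputable def Kr (P : Finset Nat.Primes) (u : ℝ) : ℝ := ∏ p ∈ P, (‖G n z p u‖ ^ 2 / Sn n z p)

open Classical in
/-- the coefficients of the factor at `p` -/
noncomputable def kap (p : Nat.Primes) (j : ℤ) : ℂ :=
  (∑ a ∈ Finset.range n, ∑ b ∈ Finset.range n,
    if j = (a : ℤ) - b then conj (z p) ^ a * z p ^ b else 0) / Sn n z p

lemma sq_G (p : Nat.Primes) (u : ℝ) : ((‖G n z p u‖ ^ 2 : ℝ) : ℂ) =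
    ∑ a ∈ Finset.range n, ∑ b ∈ Finset.range n, conj (z p) ^ a * z p ^ b *
      ee (-(((a : ℤ) - b : ℤ) * Real.log (p : ℕ))) u := by
  rw [← Complex.normSq_eq_norm_sq, Complex.normSq_eq_conj_mul_self, mul_comm]
  unfold G
  rw [map_sum, Finset.sum_mul_sum]
  refine Finset.sum_congr rfl fun a _ => Finset.sum_congr rfl fun b _ => ?_
  rw [map_mul, map_pow, Complex.conj_conj, ← ee_neg_left]
  have h1 : ee (-(((a : ℤ) - b : ℤ) * Real.log (p : ℕ))) u =
      ee (-(a * Real.log (p : ℕ))) u * ee (- -(b * Real.log (p : ℕ))) u := by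
    rw [← ee_add_left]
    congr 1
    push_cast
    ring
  rw [h1]
  ring

open Classical in
/-- **The means of the kernel against the characters.** -/
theorem mean (P : Finset Nat.Primes) (v : Nat.Primes →₀ ℤ) :
    WM (fun u => (Kr n z P u : ℂ) * ee (lam v) u)
      (if ∀ p ∉ P, v p = 0 then ∏ p ∈ P, kap n z p (v p) else 0) := by
  induction P using Finset.induction_on generalizing v with
  | empty =>
    refine (WM_ee (lam v)).congr (fun u => by simp [Kr]) ?_
    by_cases h : v = 0
    · subst h
      simp [lam]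
    · rw [if_neg fun h0 => h (lam_eq_zero h0), if_neg fun h0 => h (by
        ext p
        exact h0 p (by simp))]
  | insert p P hp ih =>
    have h1 : ∀ u, (Kr n z (insert p P) u : ℂ) * ee (lam v) u =
        ∑ a ∈ Finset.range n, ∑ b ∈ Finset.range n, (conj (z p) ^ a * z p ^ b / Sn n z p) *
          ((Kr n z P u : ℂ) * ee (lam (v - Finsupp.single p ((a : ℤ) - b))) u) := by
      intro u
      unfold Kr
      rw [Finset.prod_insert hp]
      push_cast
      have h2 := sq_G n z p u
      push_cast at h2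
      rw [h2]
      simp_rw [lam_sub_single, sub_eq_add_neg (lam v), ee_add_left]
      rw [Finset.sum_div, Finset.sum_mul, Finset.sum_mul]
      refine Finset.sum_congr rfl fun a _ => ?_
      rw [Finset.sum_div, Finset.sum_mul, Finset.sum_mul]
      refine Finset.sum_congr rfl fun b _ => ?_
      push_cast
      ring
    refine WM.congr (WM.sum _ fun a _ => WM.sum _ fun b _ => (ih _).mul _) (fun u => (h1 u).symm) ?_
    by_cases hv : ∀ q ∉ insert p P, v q = 0
    · rw [if_pos hv, Finset.prod_insert hp]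
      have h3 : ∀ a b : ℕ, (if ∀ q ∉ P, (v - Finsupp.single p ((a : ℤ) - b)) q = 0 then
          ∏ q ∈ P, kap n z q ((v - Finsupp.single p ((a : ℤ) - b)) q) else 0) =
          if v p = (a : ℤ) - b then ∏ q ∈ P, kap n z q (v q) else 0 := by
        intro a b
        have h4 : (∀ q ∉ P, (v - Finsupp.single p ((a : ℤ) - b)) q = 0) ↔ v p = (a : ℤ) - b := by
          constructor
          · intro h
            have h5 := h p hp
            rw [Finsupp.sub_apply, Finsupp.single_eq_same] at h5
            linarith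
          · intro h q hq
            rw [Finsupp.sub_apply]
            by_cases hqp : q = p
            · subst hqp
              rw [Finsupp.single_eq_same, h, sub_self]
            · rw [Finsupp.single_eq_of_ne hqp, sub_zero]
              exact hv q (by rw [Finset.mem_insert]; tauto)
        simp only [h4]
        by_cases h5 : v p = (a : ℤ) - b
        · rw [if_pos h5, if_pos h5]
          refine Finset.prod_congr rfl fun q hq => ?_
          have hqp : q ≠ p := fun h => hp (h ▸ hq)
          rw [Finsupp.sub_apply, Finsupp.single_eq_of_ne hqp, sub_zero]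
        · rw [if_neg h5, if_neg h5]
      simp_rw [h3]
      unfold kap
      rw [Finset.sum_div, Finset.sum_mul]
      refine Finset.sum_congr rfl fun a _ => ?_
      rw [Finset.sum_div, Finset.sum_mul]
      refine Finset.sum_congr rfl fun b _ => ?_
      split_ifs
      · rfl
      · simp
    · rw [if_neg hv]
      refine Finset.sum_eq_zero fun a _ => Finset.sum_eq_zero fun b _ => ?_
      rw [if_neg, mul_zero]
      intro h
      apply hv
      intro q hq
      rw [Finset.mem_insert, not_or] at hq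
      have h5 := h q hq.2
      rwa [Finsupp.sub_apply, Finsupp.single_eq_of_ne hq.1, sub_zero] at h5

end Pool.Agent.U597.EX
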