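import Pool.Agent.U597.EX.Shift
import Pool.Agent.U597.EX.Fam
import Pool.Agent.U597.EX.Defs2

/-!
# Orders on the edge
-/

set_option autoImplicit false

namespace Pool.Agent.U597.EX

open Complex MeasureTheory Filter Topology Set NumberField IsDedekindDomain Polynomial
open Pool.Agent.TH339.MP Pool.Agent.N881.RP Pool.Agent.R409.EV Pool.Agent.U597.EW
open Pool.Agent.TH958.BV (IsEulerSystem localFactor LFun edgePoint angle)

section abstract_part

variable {ι : Type} [Fintype ι] {bf : ι → PP → ℂ} {M : ι → ℝ}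

/-- the coefficients of the shifted function -/
noncomputable def bs (b : PP → ℂ) (τ : ℝ) (x : PP) : ℂ := b x * ee (fr x) τ

lemma norm_bs {b : PP → ℂ} {M : ℝ} (hb : ∀ x, ‖b x‖ ≤ M / (x.2 + 1 : ℕ)) (τ : ℝ) (x : PP) :
    ‖bs b τ x‖ ≤ M / (x.2 + 1 : ℕ) := by
  unfold bs
  rw [norm_mul, norm_ee, mul_one]
  exact hb x

lemma FF_bs (b : PP → ℂ) (τ : ℝ) (s : ℂ) : FF (bs b τ) s = FF b (s + τ * I) := by
  unfold FF
  refine tsum_congr fun x => ?_
  rw [tm_shift]
  unfold tm bs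
  ring

lemma PS_bs (b : PP → ℂ) (τ : ℝ) (X : ℕ) (u : ℝ) : PS (bs b τ) X u = PS b X (u + τ) := by
  unfold PS bs
  refine Finset.sum_congr rfl fun x _ => ?_
  rw [ee_add]
  ring

lemma bl_bs {b : PP → ℂ} {M : ℝ} (hb : ∀ x, ‖b x‖ ≤ M / (x.2 + 1 : ℕ)) (τ : ℝ) :
    ∀ᵐ u : ℝ, bl (bs b τ) u = bl b (u + τ) := by
  have h1 := ae_notMem (norm_bs hb τ)
  have h2 : ∀ᵐ u : ℝ, u + τ ∉ Pool.Agent.W350.Edge.divSet (ap b) :=
    (measurePreserving_add_right volume τ).quasiMeasurePreserving.ae (ae_notMem hb)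
  filter_upwards [h1, h2] with u h1 h2
  have h3 := PS_tendsto (norm_bs hb τ) h1
  simp_rw [PS_bs] at h3
  exact tendsto_nhds_unique h3 (PS_tendsto hb h2)

lemma norm_comb' (hb : ∀ j x, ‖bf j x‖ ≤ M j / (x.2 + 1 : ℕ)) (c : ι → ℝ) (x : PP) :
    ‖comb bf c x‖ ≤ (∑ j, |c j| * M j) / (x.2 + 1 : ℕ) := by
  unfold comb
  rw [Finset.sum_div]
  refine norm_sum_le_of_le _ fun j _ => ?_
  rw [norm_mul, Complex.norm_real, Real.norm_eq_abs, mul_div_assoc]
  exact mul_le_mul_of_nonneg_left (hb j x) (abs_nonneg _)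

lemma FF_comb' (hb : ∀ j x, ‖bf j x‖ ≤ M j / (x.2 + 1 : ℕ)) (c : ι → ℝ) {s : ℂ} (hs : 1 < s.re) :
    FF (comb bf c) s = ∑ j, (c j : ℂ) * FF (bf j) s := by
  have h1 : HasSum (fun x => ∑ j, (c j : ℂ) * tm (bf j) s x) (∑ j, (c j : ℂ) * FF (bf j) s) :=
    hasSum_sum fun j _ => ((summable_tm (hb j) hs).hasSum).mul_left _
  have h2 : (fun x => ∑ j, (c j : ℂ) * tm (bf j) s x) = tm (comb bf c) s := by
    funext x
    unfold tm comb
    rw [Finset.sum_mul]
    refine Finset.sum_congr rfl fun j _ => ?_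
    ring
  rw [h2] at h1
  exact h1.tsum_eq

theorem fam_bound (hb : ∀ j x, ‖bf j x‖ ≤ M j / (x.2 + 1 : ℕ)) (c : ι → ℝ) {A : ℝ}
    (hm : Mostly A (Phi0 bf c)) {s : ℂ} (hs : 1 < s.re) :
    |∑ j, c j * (FF (bf j) s).re| ≤ A + ∑ j, |c j| * M j := by
  obtain ⟨h1, h2⟩ := summable_edge (norm_comb' hb c) (aem_Phi0 c hb) (approx c hb) hm
  have h3 := (norm_FF_le h1 hs.le).trans h2
  rw [FF_comb' hb c hs] at h3
  have h4 := (Complex.abs_re_le_norm _).trans h3
  rw [Complex.re_sum] at h4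
  simpa only [Complex.re_ofReal_mul] using h4

lemma mostly_congr {A : ℝ} {Φ Ψ : ℝ → ℝ} (h : ∀ᵐ u : ℝ, Φ u = Ψ u) (hm : Mostly A Φ) :
    Mostly A Ψ := by
  intro ε hε R
  obtain ⟨t, T, h1, h2, h3⟩ := hm ε hε R
  refine ⟨t, T, h1, h2, le_trans (le_of_eq ?_) h3⟩
  refine measure_congr ?_
  filter_upwards [h] with u hu
  apply propext
  change (u ∈ Icc t (t + T) ∧ A < Ψ u) ↔ (u ∈ Icc t (t + T) ∧ A < Φ u)
  rw [hu]

end abstract_part

section one

variable {K : Type} [Field K] [NumberField K] {n : ℕ}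
  {X : Set (MvPolynomial (Fin n) (𝓞 K))} {d i N : ℕ} {B : HeightOneSpectrum (𝓞 K) → ℂ[X]}

lemma LGood_eq {s : ℂ} (hs : 1 < s.re) :
    LGood X d i N B (s + (i : ℂ) / 2) = Complex.exp (FF (bb (be X d i N B)) s) := by
  classical
  unfold LGood
  rw [← (hasProd_L (norm_be X d i N B) hs).tprod_eq]
  refine tprod_congr fun v => ?_
  by_cases h : Good X d i N B v
  · rw [if_pos h]
    exact factor_good h s
  · rw [if_neg h]
    symm
    refine Finset.prod_eq_one fun j _ => ?_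
    have hg : ¬ GoodV X d i N B v := h
    have h1 : be X d i N B v j = 0 := by
      unfold be
      rw [dif_neg hg]
    rw [h1, zero_mul, sub_zero, inv_one]

lemma log_LGood {s : ℂ} (hs : 1 < s.re) :
    Real.log ‖LGood X d i N B (s + (i : ℂ) / 2)‖ = (FF (bb (be X d i N B)) s).re := by
  rw [LGood_eq hs, Complex.norm_exp, Real.log_exp]

lemma edge_add (t x : ℝ) : edgePoint i t + x = (((1 + x : ℝ) : ℂ) + (t : ℂ) * I) + (i : ℂ) / 2 := by
  unfold edgePoint
  push_cast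
  ring

/-- the boundary function -/
lemma LGood_angle : ∃ Z : Set ℝ, dimH Z = 0 ∧ ∀ τ : ℝ, τ ∉ Z →
    Complex.exp (bl (bb (be X d i N B)) τ) ≠ 0 ∧ ∀ C : ℝ,
      Tendsto (LGood X d i N B) (𝓝[angle i τ C] (edgePoint i τ))
        (𝓝 (Complex.exp (bl (bb (be X d i N B)) τ))) := by
  have hb := norm_bb (norm_be X d i N B)
  set b := bb (be X d i N B) with hbdef
  refine ⟨Pool.Agent.W350.Edge.divSet (ap b), (boundary hb).2.1, fun τ hτ =>
    ⟨Complex.exp_ne_zero _, fun C => ?_⟩⟩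
  have h5 := (Complex.continuous_exp.tendsto _).comp (bl_angle hb hτ C)
  have h6 : Tendsto (fun s : ℂ => s - edgePoint i τ) (𝓝[angle i τ C] (edgePoint i τ))
      (𝓝[{z : ℂ | 0 < z.re ∧ ‖z‖ ≤ C * z.re}] 0) := by
    rw [tendsto_nhdsWithin_iff]
    constructor
    · have h7 : Tendsto (fun s : ℂ => s - edgePoint i τ) (𝓝 (edgePoint i τ))
          (𝓝 (edgePoint i τ - edgePoint i τ)) :=
        (continuous_id.sub continuous_const).tendsto _
      rw [sub_self] at h7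
      exact h7.mono_left nhdsWithin_le_nhds
    · filter_upwards [self_mem_nhdsWithin] with s hs
      have hre : (s - edgePoint i τ).re = s.re - ((i : ℝ) / 2 + 1) := by
        unfold edgePoint
        simp
      refine ⟨?_, ?_⟩
      · rw [hre]
        linarith [hs.1]
      · rw [hre]
        exact hs.2
  refine (h5.comp h6).congr' ?_
  filter_upwards [self_mem_nhdsWithin] with s hs
  have hs1 : (i : ℝ) / 2 + 1 < s.re := hs.1
  have h8 : 1 < (s - (i : ℂ) / 2).re := by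
    rw [re_half]
    linarith
  have h9 := LGood_eq (X := X) (d := d) (i := i) (N := N) (B := B) h8
  rw [sub_add_cancel] at h9
  rw [h9]
  simp only [Function.comp_apply]
  congr 2
  rw [← pt_edge, ← pt_sub i τ]
  ring

/-- the size on the horizontal ray at a point where there is an order -/
lemma log_order {t : ℝ} {m : ℤ} (h : HasOrder (LGood X d i N B) i t m) :
    ∃ C : ℝ, ∀ᶠ x : ℝ in 𝓝[>] 0,
      |(FF (bb (be X d i N B)) (((1 + x : ℝ) : ℂ) + (t : ℂ) * I)).re - m * Real.log x| ≤ C := by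
  obtain ⟨f, hf, hfL, hord⟩ := h
  rw [meromorphicOrderAt_eq_int_iff hf] at hord
  obtain ⟨g, hg, hg0, hfg⟩ := hord
  set z0 := edgePoint i t with hz0
  have hpath : Tendsto (fun x : ℝ => (z0 + x : ℂ)) (𝓝[>] 0) (𝓝 z0) := by
    have h4 : Continuous fun x : ℝ => (z0 + x : ℂ) := by fun_prop
    have h5 := h4.tendsto 0
    rw [Complex.ofReal_zero, add_zero] at h5
    exact h5.mono_left nhdsWithin_le_nhds
  have hp1 : Tendsto (fun x : ℝ => (z0 + x : ℂ)) (𝓝[>] 0)
      (𝓝[{s : ℂ | (i : ℝ) / 2 + 1 < s.re}] z0) := by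
    rw [tendsto_nhdsWithin_iff]
    refine ⟨hpath, ?_⟩
    filter_upwards [self_mem_nhdsWithin] with x hx
    have hx' : (0 : ℝ) < x := hx
    change (i : ℝ) / 2 + 1 < (z0 + x : ℂ).re
    rw [hz0]
    unfold edgePoint
    rw [Complex.add_re, Complex.add_re, Complex.ofReal_re, Complex.re_ofReal_mul, Complex.I_re,
      Complex.ofReal_re]
    linarith
  have hp2 : Tendsto (fun x : ℝ => (z0 + x : ℂ)) (𝓝[>] 0) (𝓝[≠] z0) := by
    rw [tendsto_nhdsWithin_iff]
    refine ⟨hpath, ?_⟩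
    filter_upwards [self_mem_nhdsWithin] with x hx
    have hx' : (0 : ℝ) < x := hx
    change z0 + x ≠ z0
    intro h
    rw [add_eq_left] at h
    exact hx'.ne' (by exact_mod_cast h)
  have hlim : Tendsto (fun x : ℝ => Real.log ‖g (z0 + x)‖) (𝓝[>] 0) (𝓝 (Real.log ‖g z0‖)) :=
    (Real.continuousAt_log (norm_ne_zero_iff.2 hg0)).tendsto.comp
      ((hg.continuousAt.tendsto.comp hpath).norm)
  have hgne : ∀ᶠ x : ℝ in 𝓝[>] 0, g (z0 + x) ≠ 0 :=
    (hpath.eventually (hg.continuousAt.eventually_ne hg0))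
  refine ⟨|Real.log ‖g z0‖| + 1, ?_⟩
  have hlim2 : ∀ᶠ x : ℝ in 𝓝[>] 0, |Real.log ‖g (z0 + x)‖| ≤ |Real.log ‖g z0‖| + 1 :=
    (hlim.abs.eventually (eventually_le_nhds (by linarith)))
  filter_upwards [hp1.eventually hfL, hp2.eventually hfg, hgne, hlim2, self_mem_nhdsWithin] with
    x h1 h2 h3 h4 hx
  have hx' : (0 : ℝ) < x := hx
  have h5 : 1 < (((1 + x : ℝ) : ℂ) + (t : ℂ) * I).re := by
    rw [Complex.add_re, Complex.ofReal_re, Complex.re_ofReal_mul, Complex.I_re, mul_zero, add_zero]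
    linarith
  have h6 := log_LGood (X := X) (d := d) (i := i) (N := N) (B := B) h5
  rw [← edge_add, ← hz0, ← h1, h2, add_sub_cancel_left, smul_eq_mul, norm_mul, norm_zpow,
    Complex.norm_real, Real.norm_of_nonneg hx'.le,
    Real.log_mul (zpow_ne_zero _ hx'.ne') (norm_ne_zero_iff.2 h3), Real.log_zpow] at h6
  rw [← h6]
  have h7 : (m : ℝ) * Real.log x + Real.log ‖g (z0 + x)‖ - m * Real.log x =
      Real.log ‖g (z0 + x)‖ := by ring
  rw [h7]
  exact h4

lemma eventually_log (D : ℝ) : ∀ᶠ x : ℝ in 𝓝[>] 0, D < -Real.log x := by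
  have h1 : Tendsto (fun x : ℝ => -Real.log x) (𝓝[>] 0) atTop :=
    tendsto_neg_atBot_atTop.comp Real.tendsto_log_nhdsGT_zero
  exact h1.eventually_gt_atTop D

/-- small size means order zero -/
lemma order_zero {t : ℝ} {m : ℤ} (h : HasOrder (LGood X d i N B) i t m)
    (hs : ∀ ε : ℝ, 0 < ε → ∃ C : ℝ, ∀ x : ℝ, 0 < x → x ≤ 1 → ∀ t : ℝ,
      |(FF (bb (be X d i N B)) (((1 + x : ℝ) : ℂ) + (t : ℂ) * I)).re| ≤
        ε * (-Real.log x) + C) : m = 0 := by
  by_contra hm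
  have hm' : 0 < |(m : ℝ)| := abs_pos.2 (by exact_mod_cast hm)
  obtain ⟨C, hC⟩ := log_order h
  obtain ⟨C', hC'⟩ := hs (|(m : ℝ)| / 2) (by positivity)
  have h1 : ∀ᶠ x : ℝ in 𝓝[>] 0, x ≤ 1 := by
    have h2 : ∀ᶠ x : ℝ in 𝓝 0, x ≤ 1 := eventually_le_nhds (by norm_num)
    exact h2.filter_mono nhdsWithin_le_nhds
  obtain ⟨x, h2, h3, h4, hx⟩ := (hC.and (h1.and ((eventually_log ((C + C') / (|(m : ℝ)| / 2))).and
    self_mem_nhdsWithin))).exists
  have hx' : (0 : ℝ) < x := hx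
  have h5 := hC' x hx' h3 t
  have h6 : |(m : ℝ) * Real.log x| = |(m : ℝ)| * (-Real.log x) := by
    rw [abs_mul, abs_of_nonpos (Real.log_nonpos hx'.le h3)]
  have h7 : |(m : ℝ) * Real.log x| ≤ C + (|(m : ℝ)| / 2 * (-Real.log x) + C') := by
    have h8 : (m : ℝ) * Real.log x =
        (FF (bb (be X d i N B)) (((1 + x : ℝ) : ℂ) + (t : ℂ) * I)).re -
        ((FF (bb (be X d i N B)) (((1 + x : ℝ) : ℂ) + (t : ℂ) * I)).re - m * Real.log x) := by
      ring
    rw [h8]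
    refine (abs_sub _ _).trans ?_
    linarith
  rw [h6] at h7
  rw [div_lt_iff₀ (by positivity)] at h4
  linarith

/-- from the whole L-function to the product over the good primes -/
lemma order_full (hB : IsEulerSystem X d i N B) {t : ℝ} {m : ℤ} (h : HasOrder (LFun B) i t m) :
    ∃ k : ℕ, HasOrder (LGood X d i N B) i t (m + k) := by
  obtain ⟨f, hf, hfL, hord⟩ := h
  set z0 := edgePoint i t with hz0
  set D : ℂ → ℂ := fun s => DD hB (s - (i : ℂ) / 2) with hD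
  have hDa : AnalyticAt ℂ D z0 := by
    have h1 := DD_analytic hB (z0 - (i : ℂ) / 2)
    exact analytic_shift h1
  have hDtop : analyticOrderAt D z0 ≠ ⊤ := by
    intro h1
    rw [analyticOrderAt_eq_top] at h1
    obtain ⟨U, hU, hUo, hzU⟩ := mem_nhds_iff.1 h1
    have h2 : (U ∩ {s : ℂ | D s = 0}) = U := inter_eq_left.2 fun s hs => hU hs
    have h3 : {s : ℂ | D s = 0}.Countable := by
      have h4 := (DD_countable hB).preimage (sub_left_injective (b := (i : ℂ) / 2))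
      exact h4
    have h4 : U.Countable := h3.mono fun s hs => hU hs
    obtain ⟨s, hs1, hs2⟩ := (h4.dense_compl ℝ).inter_open_nonempty U hUo ⟨z0, hzU⟩
    exact hs2 hs1
  obtain ⟨k, hk⟩ := ENat.ne_top_iff_exists.1 hDtop
  have hDm : meromorphicOrderAt D z0 = ((k : ℤ) : WithTop ℤ) := by
    rw [hDa.meromorphicOrderAt_eq, ← hk]
    rfl
  refine ⟨k, fun s => f s * D s, hf.mul hDa.meromorphicAt, ?_, ?_⟩
  · have hne : ∀ᶠ s in 𝓝[≠] z0, D s ≠ 0 := by
      rcases hDa.eventually_eq_zero_or_eventually_ne_zero with h1 | h1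
      · exact absurd (analyticOrderAt_eq_top.2 h1) hDtop
      · exact h1
    have hsub : 𝓝[{s : ℂ | (i : ℝ) / 2 + 1 < s.re}] z0 ≤ 𝓝[≠] z0 := by
      refine nhdsWithin_mono _ fun s hs => ?_
      rintro rfl
      have h1 : (i : ℝ) / 2 + 1 < z0.re := hs
      rw [hz0] at h1
      unfold edgePoint at h1
      simp at h1
    filter_upwards [hfL, hne.filter_mono hsub, self_mem_nhdsWithin] with s h1 h2 h3
    have h3' : (i : ℝ) / 2 + 1 < s.re := h3
    have h4 : 1 < (s - (i : ℂ) / 2).re := by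
      rw [re_half]
      linarith
    have h5 := LFun_eq hB h4
    have h6 := LGood_eq (X := X) (d := d) (i := i) (N := N) (B := B) h4
    rw [sub_add_cancel] at h5 h6
    rw [h1, h5, h6]
    have h7 : DD hB (s - (i : ℂ) / 2) ≠ 0 := h2
    change (DD hB (s - (i : ℂ) / 2))⁻¹ * Complex.exp (FF (bb (be X d i N B)) (s - (i : ℂ) / 2)) *
      DD hB (s - (i : ℂ) / 2) = _
    rw [mul_comm, ← mul_assoc, mul_inv_cancel₀ h7, one_mul]
  · rw [show (fun s => f s * D s) = f * D from rfl, meromorphicOrderAt_mul hf hDa.meromorphicAt,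
      hord, hDm]
    push_cast
    rfl

end one

end Pool.Agent.U597.EX
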