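import Pool.Agent.U597.EX.Mean

/-!
# Upper bounds in long windows give upper bounds for the Euler products
-/

set_option autoImplicit false

namespace Pool.Agent.U597.EX

open Complex MeasureTheory Filter Topology Set
open Pool.Agent.TH339.MP Pool.Agent.N881.RP Pool.Agent.U597.EW
open scoped ComplexConjugate

section kernel

variable {n : ℕ} {z : Nat.Primes → ℂ}

lemma one_le_Sn (hn : 1 ≤ n) (p : Nat.Primes) : 1 ≤ Sn n z p := by
  unfold Sn
  have h1 := Finset.single_le_sum (f := fun a => (‖z p‖ ^ 2) ^ a) (s := Finset.range n)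
    (fun a _ => by positivity) (Finset.mem_range.2 (by omega : 0 < n))
  simpa using h1

/-- the ratio of the geometric sums -/
noncomputable def rho (n : ℕ) (z : Nat.Primes → ℂ) (p : Nat.Primes) (m : ℕ) : ℝ :=
  (∑ a ∈ Finset.range (n - m), (‖z p‖ ^ 2) ^ a) / Sn n z p

lemma kap_neg (p : Nat.Primes) (m : ℕ) : kap n z p (-(m : ℤ)) = z p ^ m * (rho n z p m : ℝ) := by
  classical
  unfold kap rho
  have h1 : ∀ a ∈ Finset.range n, (∑ b ∈ Finset.range n,
      if (-(m : ℤ)) = (a : ℤ) - b then conj (z p) ^ a * z p ^ b else 0) =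
      if a ∈ Finset.range (n - m) then z p ^ m * (((‖z p‖ ^ 2) ^ a : ℝ) : ℂ) else 0 := by
    intro a ha
    have h2 : ∀ b ∈ Finset.range n, (if (-(m : ℤ)) = (a : ℤ) - b then conj (z p) ^ a * z p ^ b else 0)
        = if b = a + m then conj (z p) ^ a * z p ^ b else 0 := by
      intro b _
      congr 1
      apply propext
      constructor
      · intro h
        omega
      · intro h
        omega
    rw [Finset.sum_congr rfl h2, Finset.sum_ite_eq']
    have h3 : a + m ∈ Finset.range n ↔ a ∈ Finset.range (n - m) := by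
      rw [Finset.mem_range, Finset.mem_range]
      omega
    simp only [h3]
    split_ifs
    · rw [pow_add, ← mul_assoc, ← mul_pow, mul_comm (z p ^ m)]
      congr 1
      rw [← Complex.normSq_eq_conj_mul_self, Complex.normSq_eq_norm_sq]
      push_cast
      rfl
    · rfl
  rw [Finset.sum_congr rfl h1, Finset.sum_ite_mem, Finset.inter_eq_right.2, ← Finset.mul_sum]
  · push_cast
    rw [mul_div_assoc]
  · intro a ha
    rw [Finset.mem_range] at ha ⊢
    omega

lemma rho_nonneg (p : Nat.Primes) (m : ℕ) : 0 ≤ rho n z p m := by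
  unfold rho Sn
  positivity

lemma rho_le_one (p : Nat.Primes) (m : ℕ) : rho n z p m ≤ 1 := by
  unfold rho Sn
  refine div_le_one_of_le₀ ?_ (by positivity)
  exact Finset.sum_le_sum_of_subset_of_nonneg (Finset.range_subset_range.2 (by omega))
    fun a _ _ => by positivity

lemma rho_eq_zero (p : Nat.Primes) {m : ℕ} (h : n ≤ m) : rho n z p m = 0 := by
  unfold rho
  rw [Nat.sub_eq_zero_of_le h]
  simp

lemma rho_zero (hn : 1 ≤ n) (p : Nat.Primes) : rho n z p 0 = 1 := by
  unfold rho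
  have h1 := one_le_Sn (z := z) hn p
  rw [Nat.sub_zero]
  exact div_self (by unfold Sn at h1; positivity)

lemma kap_zero (hn : 1 ≤ n) (p : Nat.Primes) : kap n z p 0 = 1 := by
  have h1 := kap_neg (n := n) (z := z) p 0
  rw [rho_zero hn p] at h1
  simpa using h1

lemma rho_ge (hz : ∀ p, ‖z p‖ ≤ 1) (p : Nat.Primes) {m : ℕ} (h : m < n) :
    1 - rho n z p m ≤ m / ((n - m : ℕ) : ℝ) := by
  set r : ℝ := ‖z p‖ ^ 2 with hr
  have hr0 : 0 ≤ r := by positivity
  have hr1 : r ≤ 1 := by
    rw [hr]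
    exact pow_le_one₀ (norm_nonneg _) (hz p)
  have hS := one_le_Sn (z := z) (by omega : 1 ≤ n) p
  have h1 : Sn n z p = (∑ a ∈ Finset.range (n - m), r ^ a) +
      ∑ a ∈ Finset.range m, r ^ (n - m + a) := by
    unfold Sn
    rw [← Finset.sum_range_add (fun a => (‖z p‖ ^ 2) ^ a) (n - m) m]
    congr 2
    omega
  have h2 : ∑ a ∈ Finset.range m, r ^ (n - m + a) ≤ m * r ^ (n - m) := by
    have h3 : ∀ a ∈ Finset.range m, r ^ (n - m + a) ≤ r ^ (n - m) := fun a _ =>
      pow_le_pow_of_le_one hr0 hr1 (by omega)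
    refine (Finset.sum_le_sum h3).trans ?_
    rw [Finset.sum_const, Finset.card_range, nsmul_eq_mul]
  have h3 : ((n - m : ℕ) : ℝ) * r ^ (n - m) ≤ Sn n z p := by
    rw [h1]
    have h4 : ∀ a ∈ Finset.range (n - m), r ^ (n - m) ≤ r ^ a := fun a ha =>
      pow_le_pow_of_le_one hr0 hr1 (by rw [Finset.mem_range] at ha; omega)
    have h5 := Finset.sum_le_sum h4
    rw [Finset.sum_const, Finset.card_range, nsmul_eq_mul] at h5
    have h6 : 0 ≤ ∑ a ∈ Finset.range m, r ^ (n - m + a) :=
      Finset.sum_nonneg fun a _ => by positivity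
    linarith
  have hnm : (0 : ℝ) < ((n - m : ℕ) : ℝ) := by
    exact_mod_cast (by omega : 0 < n - m)
  have h4 : 1 - rho n z p m = (∑ a ∈ Finset.range m, r ^ (n - m + a)) / Sn n z p := by
    unfold rho
    rw [← hr, eq_div_iff (by linarith), sub_mul, div_mul_cancel₀ _ (by linarith), one_mul]
    linarith
  rw [h4, div_le_div_iff₀ (by linarith) hnm]
  have h5 : (∑ a ∈ Finset.range m, r ^ (n - m + a)) * ((n - m : ℕ) : ℝ) ≤
      (m * r ^ (n - m)) * ((n - m : ℕ) : ℝ) := mul_le_mul_of_nonneg_right h2 hnm.le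
  have h6 : (m * r ^ (n - m)) * ((n - m : ℕ) : ℝ) = m * (((n - m : ℕ) : ℝ) * r ^ (n - m)) := by ring
  rw [h6] at h5
  exact h5.trans (mul_le_mul_of_nonneg_left h3 (Nat.cast_nonneg _))

lemma rho_tendsto (hz : ∀ p, ‖z p‖ ≤ 1) (p : Nat.Primes) (m : ℕ) :
    Tendsto (fun n => rho n z p m) atTop (𝓝 1) := by
  have h1 : Tendsto (fun n : ℕ => (m : ℝ) / ((n - m : ℕ) : ℝ)) atTop (𝓝 0) := by
    refine Tendsto.const_div_atTop ?_ _
    exact tendsto_natCast_atTop_atTop.comp (tendsto_sub_atTop_nat m)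
  have h2 : Tendsto (fun n => 1 - rho n z p m) atTop (𝓝 0) := by
    refine squeeze_zero' (Eventually.of_forall fun n => ?_) ?_ h1
    · have := rho_le_one (n := n) (z := z) p m
      linarith
    · filter_upwards [eventually_gt_atTop m] with n hn
      exact rho_ge hz p hn
  have h3 := (tendsto_const_nhds (x := (1 : ℝ))).sub h2
  simpa using h3

lemma norm_G_le (hz : ∀ p, ‖z p‖ ≤ 1) (p : Nat.Primes) (u : ℝ) : ‖G n z p u‖ ≤ n := by
  unfold G
  refine (norm_sum_le _ _).trans ?_
  have h1 : ∀ a ∈ Finset.range n, ‖conj (z p) ^ a * ee (-(a * Real.log (p : ℕ))) u‖ ≤ 1 := by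
    intro a _
    rw [norm_mul, norm_ee, mul_one, norm_pow, RCLike.norm_conj]
    exact pow_le_one₀ (norm_nonneg _) (hz p)
  refine (Finset.sum_le_sum h1).trans ?_
  simp

lemma Kr_nonneg (P : Finset Nat.Primes) (u : ℝ) : 0 ≤ Kr n z P u := by
  unfold Kr Sn
  positivity

lemma Kr_le (hn : 1 ≤ n) (hz : ∀ p, ‖z p‖ ≤ 1) (P : Finset Nat.Primes) (u : ℝ) :
    Kr n z P u ≤ ∏ _p ∈ P, (n : ℝ) ^ 2 := by
  unfold Kr
  refine Finset.prod_le_prod (fun p _ => ?_) fun p _ => ?_
  · unfold Sn
    positivity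
  · have h1 := norm_G_le (n := n) hz p u
    have h2 := one_le_Sn (z := z) hn p
    have h3 : ‖G n z p u‖ ^ 2 ≤ (n : ℝ) ^ 2 := pow_le_pow_left₀ (norm_nonneg _) h1 2
    exact (div_le_self (by positivity) h2).trans h3

lemma mean_one (hn : 1 ≤ n) (P : Finset Nat.Primes) : WM (fun u => (Kr n z P u : ℂ)) 1 := by
  classical
  refine (mean n z P 0).congr (fun u => ?_) ?_
  · simp [lam, ee_zero_left]
  · rw [if_pos (show ∀ p ∉ P, (0 : Nat.Primes →₀ ℤ) p = 0 from fun p _ => rfl)]
    refine Finset.prod_eq_one fun p _ => ?_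
    rw [Finsupp.zero_apply]
    exact kap_zero hn p

open Classical in
lemma mean_char (hn : 1 ≤ n) (P : Finset Nat.Primes) (x : PP) :
    WM (fun u => (Kr n z P u : ℂ) * ee (fr x) u)
      (if x.1 ∈ P then z x.1 ^ (x.2 + 1) * (rho n z x.1 (x.2 + 1) : ℝ) else 0) := by
  refine (mean n z P (Finsupp.single x.1 (-((x.2 + 1 : ℕ) : ℤ)))).congr (fun u => ?_) ?_
  · rw [lam_single]
    congr 2
    unfold fr
    push_cast
    ring
  · by_cases h : x.1 ∈ P
    · rw [if_pos h, if_pos, ← Finset.mul_prod_erase _ _ h, Finset.prod_eq_one, mul_one,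
        Finsupp.single_eq_same, kap_neg]
      · intro p hp
        rw [Finsupp.single_eq_of_ne (Finset.ne_of_mem_erase hp)]
        exact kap_zero hn p
      · intro p hp
        rw [Finsupp.single_eq_of_ne]
        rintro rfl
        exact hp h
    · rw [if_neg h, if_neg]
      intro h1
      have h2 := h1 x.1 h
      rw [Finsupp.single_eq_same] at h2
      omega

open Classical in
lemma mean_PS (hn : 1 ≤ n) (P : Finset Nat.Primes) (b : PP → ℂ) (X : ℕ) :
    WM (fun u => (Kr n z P u : ℂ) * PS b X u) (∑ x ∈ TX X, ac b x *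
      (if x.1 ∈ P then z x.1 ^ (x.2 + 1) * (rho n z x.1 (x.2 + 1) : ℝ) else 0)) := by
  refine (WM.sum (TX X) fun x _ => (mean_char hn P x).mul (ac b x)).congr (fun u => ?_) rfl
  unfold PS
  rw [Finset.mul_sum]
  refine Finset.sum_congr rfl fun x _ => ?_
  unfold ac
  ring

lemma mean_val (P : Finset Nat.Primes) (b : PP → ℂ) {X : ℕ}
    (hX : P ×ˢ Finset.range n ⊆ TX X) :
    (∑ x ∈ TX X, ac b x * (open Classical in
      if x.1 ∈ P then z x.1 ^ (x.2 + 1) * (rho n z x.1 (x.2 + 1) : ℝ) else 0)) =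
    ∑ p ∈ P, ∑ k ∈ Finset.range n, ac b (p, k) * (z p ^ (k + 1) * (rho n z p (k + 1) : ℝ)) := by
  classical
  rw [← Finset.sum_product' (f := fun p k => ac b (p, k) *
    (z p ^ (k + 1) * ((rho n z p (k + 1) : ℝ) : ℂ)))]
  symm
  refine Finset.sum_subset_zero_on_sdiff hX (fun x hx => ?_) fun x hx => ?_
  · rw [Finset.mem_sdiff, Finset.mem_product, Finset.mem_range, not_and_or] at hx
    by_cases h : x.1 ∈ P
    · have h1 : n ≤ x.2 := by
        rcases hx.2 with h2 | h2
        · exact absurd h h2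
        · omega
      rw [if_pos h, rho_eq_zero x.1 (by omega : n ≤ x.2 + 1)]
      simp
    · rw [if_neg h, mul_zero]
  · rw [Finset.mem_product] at hx
    rw [if_pos hx.1]

end kernel

/-- there are arbitrarily long windows in which `Φ ≤ A` outside a set of small proportion -/
def Mostly (A : ℝ) (Φ : ℝ → ℝ) : Prop :=
  ∀ ε : ℝ, 0 < ε → ∀ R : ℝ, ∃ t T : ℝ, R ≤ T ∧ 0 < T ∧
    volume {u : ℝ | u ∈ Icc t (t + T) ∧ A < Φ u} ≤ ENNReal.ofReal (ε * T)

lemma integral_le_of_lint {f : ℝ → ℝ} (hf : Continuous f) {t T c : ℝ} (hT : 0 ≤ T) (hc : 0 ≤ c)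
    (h : ∫⁻ u in Icc t (t + T), ENNReal.ofReal (f u) ≤ ENNReal.ofReal c) :
    ∫ u in t..(t + T), f u ≤ c := by
  rw [intervalIntegral.integral_of_le (by linarith), ← integral_Icc_eq_integral_Ioc]
  have hi : IntegrableOn f (Icc t (t + T)) := hf.continuousOn.integrableOn_compact isCompact_Icc
  have hm : Continuous fun u => max (f u) 0 := hf.max continuous_const
  have hi' : IntegrableOn (fun u => max (f u) 0) (Icc t (t + T)) :=
    hm.continuousOn.integrableOn_compact isCompact_Icc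
  refine (integral_mono hi hi' fun u => le_max_left _ _).trans ?_
  rw [integral_eq_lintegral_of_nonneg_ae (f := fun u => max (f u) 0)
    (Eventually.of_forall fun u => le_max_right _ _) hm.aestronglyMeasurable]
  refine ENNReal.toReal_le_of_le_ofReal hc (le_trans (le_of_eq ?_) h)
  refine lintegral_congr fun u => ?_
  rcases le_total (f u) 0 with h1 | h1
  · rw [max_eq_right h1, ENNReal.ofReal_of_nonpos h1, ENNReal.ofReal_zero]
  · rw [max_eq_left h1]

theorem main_ineq {Φ : ℝ → ℝ} (hΦ : AEMeasurable Φ) {b : PP → ℂ}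
    (happ : ∀ ε : ℝ, 0 < ε → ∃ X0 : ℕ, ∀ X : ℕ, X0 ≤ X → ∀ t : ℝ,
      ∫⁻ u in Icc t (t + 1), ENNReal.ofReal |Φ u - (PS b X u).re| ≤ ENNReal.ofReal ε)
    {A : ℝ} (hA : Mostly A Φ) {n : ℕ} (hn : 1 ≤ n) {z : Nat.Primes → ℂ} (hz : ∀ p, ‖z p‖ ≤ 1)
    (P : Finset Nat.Primes) :
    (∑ p ∈ P, ∑ k ∈ Finset.range n, ac b (p, k) * (z p ^ (k + 1) * (rho n z p (k + 1) : ℝ))).re
      ≤ A := by
  classical
  set μ : ℂ := ∑ p ∈ P, ∑ k ∈ Finset.range n,
    ac b (p, k) * (z p ^ (k + 1) * (rho n z p (k + 1) : ℝ)) with hμ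
  refine le_of_forall_pos_le_add fun η hη => ?_
  set B : ℝ := ∏ _p ∈ P, (n : ℝ) ^ 2 with hB
  have hB0 : 0 ≤ B := Finset.prod_nonneg fun _ _ => by positivity
  set ε : ℝ := η / (4 * (B + 1)) with hε
  have hε0 : 0 < ε := by positivity
  have hBε : B * ε ≤ η / 4 := by
    rw [hε, mul_div_assoc', div_le_div_iff₀ (by positivity) (by norm_num)]
    nlinarith
  obtain ⟨X0, hX0⟩ := happ ε hε0
  set X : ℕ := max X0 ((P ×ˢ Finset.range n).sup qq) with hXdef
  have hPX : P ×ˢ Finset.range n ⊆ TX X := by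
    intro x hx
    rw [mem_TX]
    exact (Finset.le_sup (f := qq) hx).trans (le_max_right _ _)
  have hap := hX0 X (le_max_left _ _)
  obtain ⟨-, C1, hC1⟩ := mean_PS (z := z) hn P b X
  rw [mean_val P b hPX, ← hμ] at hC1
  obtain ⟨hKc, C2, hC2⟩ := mean_one (n := n) (z := z) hn P
  -- the kernel is continuous
  have hKc' : Continuous (Kr n z P) := by
    have h1 := Complex.continuous_re.comp hKc
    exact h1
  have hPc : Continuous (PS b X) := continuous_PS b X
  set Cs : ℝ := (∑ x ∈ TX X, ‖ac b x‖) + |A| with hCs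
  have hCs0 : 0 ≤ Cs := by positivity
  have hPle : ∀ u, |(PS b X u).re| ≤ ∑ x ∈ TX X, ‖ac b x‖ := by
    intro u
    refine (Complex.abs_re_le_norm _).trans ?_
    unfold PS
    refine norm_sum_le_of_le _ fun x _ => ?_
    rw [norm_mul, norm_ee, mul_one]
    rfl
  set δ : ℝ := η / (4 * (B * Cs + 1)) with hδ
  have hδ0 : 0 < δ := by positivity
  have hBδ : B * Cs * δ ≤ η / 4 := by
    rw [hδ, mul_div_assoc', div_le_div_iff₀ (by positivity) (by norm_num)]
    nlinarith [mul_nonneg hB0 hCs0]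
  have hC1' : 0 ≤ C1 := (norm_nonneg _).trans (hC1 0 0 le_rfl)
  have hC2' : 0 ≤ C2 := (norm_nonneg _).trans (hC2 0 0 le_rfl)
  set R : ℝ := 4 * (C1 + |A| * C2 + B * ε) / η with hR
  obtain ⟨t, T, hRT, hT, hvol⟩ := hA δ hδ0 R
  set f : ℝ → ℝ := fun u => Kr n z P u * ((PS b X u).re - A) with hf
  have hfc : Continuous f := hKc'.mul ((Complex.continuous_re.comp hPc).sub continuous_const)
  -- the upper bound
  set E : Set ℝ := {u : ℝ | A < Φ u} with hE
  have hpt : ∀ u, ENNReal.ofReal (f u) ≤ ENNReal.ofReal B * ENNReal.ofReal |Φ u - (PS b X u).re| +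
      E.indicator (fun _ => ENNReal.ofReal (B * Cs)) u := by
    intro u
    have hK0 := Kr_nonneg (n := n) (z := z) P u
    have hKB : Kr n z P u ≤ B := Kr_le hn hz P u
    by_cases hu : u ∈ E
    · rw [indicator_of_mem hu]
      refine le_trans (ENNReal.ofReal_le_ofReal ?_) le_add_self
      have h1 : (PS b X u).re - A ≤ Cs := by
        have := hPle u
        have h2 := le_abs_self (PS b X u).re
        have h3 := neg_abs_le A
        rw [hCs]
        linarith
      calc f u ≤ Kr n z P u * Cs := mul_le_mul_of_nonneg_left h1 hK0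
        _ ≤ B * Cs := mul_le_mul_of_nonneg_right hKB hCs0
    · rw [indicator_of_notMem hu, add_zero, ← ENNReal.ofReal_mul hB0]
      refine ENNReal.ofReal_le_ofReal ?_
      have h1 : Φ u ≤ A := not_lt.1 hu
      have h2 : (PS b X u).re - A ≤ |Φ u - (PS b X u).re| := by
        have := neg_abs_le (Φ u - (PS b X u).re)
        linarith
      calc f u ≤ Kr n z P u * |Φ u - (PS b X u).re| := mul_le_mul_of_nonneg_left h2 hK0
        _ ≤ B * |Φ u - (PS b X u).re| := mul_le_mul_of_nonneg_right hKB (abs_nonneg _)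
  have hup : ∫ u in t..(t + T), f u ≤ B * ((T + 1) * ε) + B * Cs * (δ * T) := by
    refine integral_le_of_lint hfc hT.le (by positivity) ?_
    refine (lintegral_mono hpt).trans ?_
    have hmeas : AEMeasurable (fun u => ENNReal.ofReal B * ENNReal.ofReal |Φ u - (PS b X u).re|)
        (volume.restrict (Icc t (t + T))) := by
      refine AEMeasurable.const_mul ?_ _
      refine AEMeasurable.restrict ?_
      refine ENNReal.measurable_ofReal.comp_aemeasurable ?_
      exact measurable_norm.comp_aemeasurable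
        (hΦ.sub (Complex.continuous_re.comp hPc).measurable.aemeasurable)
    rw [lintegral_add_left' hmeas, ENNReal.ofReal_add (by positivity) (by positivity)]
    refine add_le_add ?_ ?_
    · rw [lintegral_const_mul' _ _ ENNReal.ofReal_ne_top, ENNReal.ofReal_mul hB0]
      exact mul_le_mul' le_rfl (cover' hε0.le hap hT.le t)
    · refine (lintegral_indicator_const_le _ _).trans ?_
      rw [Measure.restrict_apply' measurableSet_Icc,
        ENNReal.ofReal_mul (p := B * Cs) (q := δ * T) (by positivity)]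
      refine mul_le_mul' le_rfl (le_trans (measure_mono ?_) hvol)
      rintro u ⟨h1, h2⟩
      exact ⟨h2, h1⟩
  -- the lower bound
  have hlow : T * (μ.re - A) - (C1 + |A| * C2) ≤ ∫ u in t..(t + T), f u := by
    have h1 : ∫ u in t..(t + T), f u = (∫ u in t..(t + T), (Kr n z P u : ℂ) * PS b X u).re -
        A * (∫ u in t..(t + T), (Kr n z P u : ℂ)).re := by
      have i1 : IntervalIntegrable (fun u => (Kr n z P u : ℂ) * PS b X u) volume t (t + T) :=
        (hKc.mul hPc).intervalIntegrable _ _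
      have i2 : IntervalIntegrable (fun u => (Kr n z P u : ℂ)) volume t (t + T) :=
        hKc.intervalIntegrable _ _
      have e1 := Complex.reCLM.intervalIntegral_comp_comm i1
      have e2 := Complex.reCLM.intervalIntegral_comp_comm i2
      simp only [Complex.reCLM_apply] at e1 e2
      rw [← e1, ← e2, ← intervalIntegral.integral_const_mul, ← intervalIntegral.integral_sub]
      · refine intervalIntegral.integral_congr fun u _ => ?_
        simp only [hf, Complex.re_ofReal_mul, Complex.ofReal_re]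
        ring
      · exact (Complex.continuous_re.comp (hKc.mul hPc)).intervalIntegrable _ _
      · exact (continuous_const.mul (Complex.continuous_re.comp hKc)).intervalIntegrable _ _
    have h2 := hC1 t T hT.le
    have h3 := hC2 t T hT.le
    have h4 : T * μ.re - C1 ≤ (∫ u in t..(t + T), (Kr n z P u : ℂ) * PS b X u).re := by
      have h5 := (Complex.abs_re_le_norm _).trans h2
      rw [Complex.sub_re, Complex.re_ofReal_mul] at h5
      have := neg_abs_le ((∫ u in t..(t + T), (Kr n z P u : ℂ) * PS b X u).re - T * μ.re)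
      linarith
    have h5 : A * (∫ u in t..(t + T), (Kr n z P u : ℂ)).re ≤ A * T + |A| * C2 := by
      have h6 := (Complex.abs_re_le_norm _).trans h3
      rw [Complex.sub_re, mul_one, Complex.ofReal_re] at h6
      have h7 : A * ((∫ u in t..(t + T), (Kr n z P u : ℂ)).re - T) ≤ |A| * C2 := by
        refine (le_abs_self _).trans ?_
        rw [abs_mul]
        exact mul_le_mul_of_nonneg_left h6 (abs_nonneg _)
      linarith
    rw [h1]
    linarith
  have hfin : T * (μ.re - A) ≤ (C1 + |A| * C2 + B * ε) + T * (B * ε) + T * (B * Cs * δ) := by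
    linarith
  have h1 : C1 + |A| * C2 + B * ε ≤ T * (η / 4) := by
    have h2 : R * (η / 4) ≤ T * (η / 4) := mul_le_mul_of_nonneg_right hRT (by positivity)
    have h3 : R * (η / 4) = C1 + |A| * C2 + B * ε := by
      rw [hR]
      field_simp
    linarith
  have h2 : T * (B * ε) ≤ T * (η / 4) := mul_le_mul_of_nonneg_left hBε hT.le
  have h3 : T * (B * Cs * δ) ≤ T * (η / 4) := mul_le_mul_of_nonneg_left hBδ hT.le
  have h4 : T * (μ.re - A) ≤ T * η := by nlinarith
  have h5 := le_of_mul_le_mul_left h4 hT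
  linarith

lemma norm_ac {b : PP → ℂ} {M : ℝ} (hb : ∀ x, ‖b x‖ ≤ M / (x.2 + 1 : ℕ)) (x : PP) :
    ‖ac b x‖ ≤ M * wt 1 x := by
  unfold ac
  rw [norm_mul, Complex.norm_real, Real.norm_of_nonneg (wt_nonneg 1 x)]
  exact mul_le_mul_of_nonneg_right (norm_b_le hb x) (wt_nonneg 1 x)

lemma summable_wt_fiber (p : Nat.Primes) : Summable fun k : ℕ => wt 1 (p, k) := by
  have h3 : Summable fun k : ℕ => ((1 : ℝ) / 2) ^ (k + 1) :=
    (summable_nat_add_iff 1).2 (summable_geometric_of_lt_one (by norm_num) (by norm_num))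
  refine Summable.of_nonneg_of_le (fun k => wt_nonneg 1 _) (fun k => ?_) h3
  unfold wt
  exact pow_le_pow_left₀ (Real.rpow_nonneg (prime_pos _).le _) (rpow_neg_le_half p le_rfl) _

lemma summable_ac_fiber {b : PP → ℂ} {M : ℝ} (hb : ∀ x, ‖b x‖ ≤ M / (x.2 + 1 : ℕ))
    (p : Nat.Primes) : Summable fun k : ℕ => ‖ac b (p, k)‖ :=
  Summable.of_nonneg_of_le (fun _ => norm_nonneg _) (fun k => norm_ac hb (p, k))
    ((summable_wt_fiber p).mul_left M)

/-- **The bound for the Euler products.** -/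
theorem local_bound {Φ : ℝ → ℝ} (hΦ : AEMeasurable Φ) {b : PP → ℂ}
    (hs : ∀ p : Nat.Primes, Summable fun k : ℕ => ‖ac b (p, k)‖)
    (happ : ∀ ε : ℝ, 0 < ε → ∃ X0 : ℕ, ∀ X : ℕ, X0 ≤ X → ∀ t : ℝ,
      ∫⁻ u in Icc t (t + 1), ENNReal.ofReal |Φ u - (PS b X u).re| ≤ ENNReal.ofReal ε)
    {A : ℝ} (hA : Mostly A Φ) {z : Nat.Primes → ℂ} (hz : ∀ p, ‖z p‖ ≤ 1)
    (P : Finset Nat.Primes) :
    (∑ p ∈ P, ∑' k : ℕ, ac b (p, k) * z p ^ (k + 1)).re ≤ A := by
  have h1 : ∀ p ∈ P, Tendsto (fun n : ℕ => ∑ k ∈ Finset.range n,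
      ac b (p, k) * (z p ^ (k + 1) * (rho n z p (k + 1) : ℝ))) atTop
      (𝓝 (∑' k : ℕ, ac b (p, k) * z p ^ (k + 1))) := by
    intro p _
    have h2 : ∀ n : ℕ, ∑ k ∈ Finset.range n,
        ac b (p, k) * (z p ^ (k + 1) * (rho n z p (k + 1) : ℝ)) =
        ∑' k : ℕ, ac b (p, k) * (z p ^ (k + 1) * (rho n z p (k + 1) : ℝ)) := by
      intro n
      symm
      refine tsum_eq_sum fun k hk => ?_
      rw [Finset.mem_range, not_lt] at hk
      rw [rho_eq_zero p (by omega : n ≤ k + 1)]
      simp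
    simp_rw [h2]
    refine tendsto_tsum_of_dominated_convergence (hs p) (fun k => ?_)
      (Eventually.of_forall fun n k => ?_)
    · have h3 := (Complex.continuous_ofReal.tendsto _).comp (rho_tendsto hz p (k + 1))
      have h4 := (h3.const_mul (z p ^ (k + 1))).const_mul (ac b (p, k))
      simpa using h4
    · rw [norm_mul, norm_mul, norm_pow, Complex.norm_real,
        Real.norm_of_nonneg (rho_nonneg p (k + 1))]
      refine mul_le_of_le_one_right (norm_nonneg _) ?_
      exact mul_le_one₀ (pow_le_one₀ (norm_nonneg _) (hz p)) (rho_nonneg _ _) (rho_le_one _ _)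
  have h2 := (Complex.continuous_re.tendsto _).comp (tendsto_finsetSum P h1)
  refine le_of_tendsto h2 ?_
  filter_upwards [eventually_ge_atTop 1] with n hn
  exact main_ineq hΦ happ hA hn hz P

end Pool.Agent.U597.EX
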