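import Pool.Agent.U597.EX.Abs
import Pool.Agent.U597.EX.Defs
import Pool.Agent.U597.EW.Fam

/-!
# Shifts: one-sided bounds for `Φ(u + τ) - Φ(u)` in long windows
-/

set_option autoImplicit false

namespace Pool.Agent.U597.EX

open Complex MeasureTheory Filter Topology Set
open Pool.Agent.TH339.MP Pool.Agent.N881.RP Pool.Agent.U597.EW
open scoped ComplexConjugate

variable {b : PP → ℂ} {M : ℝ} {A : ℝ}

/-- the coefficients of the difference -/
noncomputable def sb (b : PP → ℂ) (τ : ℝ) (x : PP) : ℂ := b x * (ee (fr x) τ - 1)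

lemma norm_sb (hb : ∀ x, ‖b x‖ ≤ M / (x.2 + 1 : ℕ)) (τ : ℝ) (x : PP) :
    ‖sb b τ x‖ ≤ (2 * M) / (x.2 + 1 : ℕ) := by
  unfold sb
  rw [norm_mul]
  have h1 : ‖ee (fr x) τ - 1‖ ≤ 2 := by
    refine (norm_sub_le _ _).trans ?_
    rw [norm_ee, norm_one]
    norm_num
  have h2 := hb x
  calc ‖b x‖ * ‖ee (fr x) τ - 1‖ ≤ (M / (x.2 + 1 : ℕ)) * 2 :=
        mul_le_mul h2 h1 (norm_nonneg _) ((norm_nonneg _).trans h2)
    _ = (2 * M) / (x.2 + 1 : ℕ) := by ring

lemma PS_sb (τ : ℝ) (X : ℕ) (u : ℝ) : PS (sb b τ) X u = PS b X (u + τ) - PS b X u := by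
  unfold PS sb
  rw [← Finset.sum_sub_distrib]
  refine Finset.sum_congr rfl fun x _ => ?_
  rw [ee_add]
  ring

lemma tm_shift (s : ℂ) (τ : ℝ) (x : PP) : tm b (s + τ * I) x = tm b s x * ee (fr x) τ := by
  rw [tm_exp, tm_exp, add_mul, Complex.exp_add, ← mul_assoc]
  congr 1
  unfold ee
  congr 1
  push_cast
  ring

lemma FF_sb (hb : ∀ x, ‖b x‖ ≤ M / (x.2 + 1 : ℕ)) (τ : ℝ) {s : ℂ} (hs : 1 < s.re) :
    FF (sb b τ) s = FF b (s + τ * I) - FF b s := by
  have h1 : 1 < (s + τ * I).re := by simpa using hs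
  have h2 := (summable_tm hb h1).hasSum.sub (summable_tm hb hs).hasSum
  have h3 : (fun x => tm b (s + τ * I) x - tm b s x) = tm (sb b τ) s := by
    funext x
    rw [tm_shift]
    unfold tm sb
    ring
  rw [h3] at h2
  exact h2.tsum_eq

/-- the difference of the boundary functions -/
noncomputable def dl (b : PP → ℂ) (τ : ℝ) (u : ℝ) : ℝ := (bl b (u + τ)).re - (bl b u).re

lemma aem_bl_shift (hb : ∀ x, ‖b x‖ ≤ M / (x.2 + 1 : ℕ)) (τ : ℝ) :
    AEMeasurable (fun u => bl b (u + τ)) :=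
  (boundary hb).1.comp_quasiMeasurePreserving
    (measurePreserving_add_right volume τ).quasiMeasurePreserving

lemma aem_dl (hb : ∀ x, ‖b x‖ ≤ M / (x.2 + 1 : ℕ)) (τ : ℝ) : AEMeasurable (dl b τ) :=
  (Complex.measurable_re.comp_aemeasurable (aem_bl_shift hb τ)).sub
    (Complex.measurable_re.comp_aemeasurable (boundary hb).1)

lemma approx_dl (hb : ∀ x, ‖b x‖ ≤ M / (x.2 + 1 : ℕ)) (τ : ℝ) (ε : ℝ) (hε : 0 < ε) :
    ∃ X0 : ℕ, ∀ X : ℕ, X0 ≤ X → ∀ t : ℝ,
      ∫⁻ u in Icc t (t + 1), ENNReal.ofReal |dl b τ u - (PS (sb b τ) X u).re| ≤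
        ENNReal.ofReal ε := by
  obtain ⟨X0, hX0⟩ := approx_one hb (ε / 2) (by positivity)
  refine ⟨X0, fun X hX t => ?_⟩
  set F : ℝ → ENNReal := fun u => ENNReal.ofReal ‖bl b u - PS b X u‖ with hF
  have h1 : ∀ u, ENNReal.ofReal |dl b τ u - (PS (sb b τ) X u).re| ≤ F (u + τ) + F u := by
    intro u
    rw [hF]
    simp only
    rw [← ENNReal.ofReal_add (norm_nonneg _) (norm_nonneg _)]
    refine ENNReal.ofReal_le_ofReal ?_
    rw [PS_sb]
    unfold dl
    have h2 := Complex.abs_re_le_norm (bl b (u + τ) - PS b X (u + τ))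
    have h3 := Complex.abs_re_le_norm (bl b u - PS b X u)
    rw [Complex.sub_re] at h2 h3 ⊢
    have h4 : (bl b (u + τ)).re - (bl b u).re - ((PS b X (u + τ)).re - (PS b X u).re) =
        ((bl b (u + τ)).re - (PS b X (u + τ)).re) - ((bl b u).re - (PS b X u).re) := by ring
    rw [h4]
    exact (abs_sub _ _).trans (add_le_add h2 h3)
  have h2 : ∫⁻ u in Icc t (t + 1), F (u + τ) ≤ ENNReal.ofReal (ε / 2) := by
    have h3 := (measurePreserving_add_right volume τ).setLIntegral_comp_preimage_emb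
      (MeasurableEquiv.addRight τ).measurableEmbedding F (Icc (t + τ) (t + τ + 1))
    have h4 : (fun u : ℝ => u + τ) ⁻¹' Icc (t + τ) (t + τ + 1) = Icc t (t + 1) := by
      ext u
      simp only [mem_preimage, mem_Icc]
      constructor
      · rintro ⟨h1, h2⟩
        constructor <;> linarith
      · rintro ⟨h1, h2⟩
        constructor <;> linarith
    rw [h4] at h3
    exact (le_of_eq h3).trans (hX0 X hX (t + τ))
  have hm : AEMeasurable (fun u => F (u + τ)) (volume.restrict (Icc t (t + 1))) := by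
    refine AEMeasurable.restrict ?_
    refine ENNReal.measurable_ofReal.comp_aemeasurable ?_
    refine (AEMeasurable.sub (aem_bl_shift hb τ) ?_).norm
    exact ((continuous_PS b X).comp (continuous_id.add continuous_const)).measurable.aemeasurable
  refine (lintegral_mono h1).trans ?_
  rw [lintegral_add_left' hm]
  refine (add_le_add h2 (hX0 X hX t)).trans ?_
  rw [← ENNReal.ofReal_add (by positivity) (by positivity)]
  exact ENNReal.ofReal_le_ofReal (by linarith)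

/-- **The difference is bounded.** -/
theorem shift_bound (hb : ∀ x, ‖b x‖ ≤ M / (x.2 + 1 : ℕ)) {τ : ℝ} (hA : Mostly A (dl b τ))
    {s : ℂ} (hs : 1 < s.re) : |(FF b (s + τ * I)).re - (FF b s).re| ≤ A + 2 * M := by
  obtain ⟨h1, h2⟩ := summable_edge (norm_sb hb τ) (aem_dl hb τ) (approx_dl hb τ) hA
  have h3 := (norm_FF_le h1 hs.le).trans h2
  rw [FF_sb hb τ hs] at h3
  have h4 := (Complex.abs_re_le_norm _).trans h3
  rwa [Complex.sub_re] at h4

lemma zeta_bound {y : ℝ} (hy : y ≠ 0) : ∃ C : ℝ, 0 ≤ C ∧ ∀ x : ℝ, 0 < x → x ≤ 1 →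
    (FF (fun x => 1 / ((x.2 + 1 : ℕ) : ℂ)) (((1 + x : ℝ) : ℂ) + y * I)).re ≤ C := by
  have hc : ContinuousOn (fun x : ℝ => ‖riemannZeta (((1 + x : ℝ) : ℂ) + y * I)‖)
      (Icc (0 : ℝ) 1) := by
    intro x _
    refine ContinuousAt.continuousWithinAt ?_
    refine ContinuousAt.norm ?_
    have hne : ((1 + x : ℝ) : ℂ) + y * I ≠ 1 := by
      intro h
      have := congrArg Complex.im h
      simp at this
      exact hy this
    have h1 : ContinuousAt riemannZeta (((1 + x : ℝ) : ℂ) + y * I) :=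
      (differentiableAt_riemannZeta hne).continuousAt
    refine ContinuousAt.comp (f := fun x : ℝ => ((1 + x : ℝ) : ℂ) + y * I) h1 ?_
    fun_prop
  obtain ⟨C, hC⟩ := isCompact_Icc.bddAbove_image hc
  refine ⟨max C 0, le_max_right _ _, fun x h0 h1 => ?_⟩
  have h2 := FF_zeta (σ := 1 + x) (by linarith) y
  have h3 : ‖riemannZeta (((1 + x : ℝ) : ℂ) + y * I)‖ ≤ C :=
    hC (mem_image_of_mem _ ⟨h0.le, h1⟩)
  rw [← h2, Complex.norm_exp] at h3
  have h4 := Real.add_one_le_exp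
    (FF (fun x => 1 / ((x.2 + 1 : ℕ) : ℂ)) (((1 + x : ℝ) : ℂ) + y * I)).re
  exact le_max_of_le_left (by linarith)

/-- the Dirichlet kernel -/
noncomputable def DK (n : ℕ) (τ : ℝ) (x : PP) : ℂ := ∑ k ∈ Finset.range n, ee (fr x) (k * τ)

lemma sq_DK (n : ℕ) (τ : ℝ) (x : PP) : ‖DK n τ x‖ ^ 2 =
    ∑ k ∈ Finset.range n, ∑ l ∈ Finset.range n, (ee (fr x) ((k - l : ℝ) * τ)).re := by
  have h1 : ((‖DK n τ x‖ ^ 2 : ℝ) : ℂ) =
      ∑ k ∈ Finset.range n, ∑ l ∈ Finset.range n, ee (fr x) ((k - l : ℝ) * τ) := by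
    rw [← Complex.normSq_eq_norm_sq, Complex.normSq_eq_conj_mul_self, mul_comm]
    unfold DK
    rw [map_sum, Finset.sum_mul_sum]
    refine Finset.sum_congr rfl fun k _ => Finset.sum_congr rfl fun l _ => ?_
    rw [← ee_neg_left, ← ee_neg_right, ← ee_add]
    congr 1
    ring
  have h2 := congrArg Complex.re h1
  rw [Complex.ofReal_re, Complex.re_sum] at h2
  rw [h2]
  refine Finset.sum_congr rfl fun k _ => ?_
  rw [Complex.re_sum]

lemma weighted (n : ℕ) {τ : ℝ} (hτ : τ ≠ 0) : ∃ C : ℝ, 0 ≤ C ∧ ∀ x : ℝ, 0 < x → x ≤ 1 →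
    Summable (fun y : PP => wt (1 + x) y / (y.2 + 1 : ℕ) * ‖DK n τ y‖ ^ 2) ∧
    ∑' y : PP, wt (1 + x) y / (y.2 + 1 : ℕ) * ‖DK n τ y‖ ^ 2 ≤
      n * (Real.log 3 - Real.log x) + C := by
  classical
  have hz : ∀ k l : ℕ, ∃ C : ℝ, 0 ≤ C ∧ ∀ x : ℝ, 0 < x → x ≤ 1 → k ≠ l →
      (FF (fun x => 1 / ((x.2 + 1 : ℕ) : ℂ)) (((1 + x : ℝ) : ℂ) + ((k - l : ℝ) * τ : ℝ) * I)).re
        ≤ C := by
    intro k l
    by_cases h : k = l
    · exact ⟨0, le_rfl, fun x _ _ h' => absurd h h'⟩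
    · have hne : ((k : ℝ) - l) * τ ≠ 0 := by
        refine mul_ne_zero ?_ hτ
        rw [sub_ne_zero]
        exact_mod_cast h
      obtain ⟨C, hC, h1⟩ := zeta_bound hne
      exact ⟨C, hC, fun x h0 h2 _ => h1 x h0 h2⟩
  choose C hC hCb using hz
  refine ⟨∑ k ∈ Finset.range n, ∑ l ∈ Finset.range n, C k l,
    Finset.sum_nonneg fun k _ => Finset.sum_nonneg fun l _ => hC k l, fun x h0 h1 => ?_⟩
  have hσ : 1 < 1 + x := by linarith
  set a : PP → ℂ := fun x => 1 / ((x.2 + 1 : ℕ) : ℂ) with ha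
  have hab : ∀ y, ‖a y‖ ≤ 1 / (y.2 + 1 : ℕ) := by
    intro y
    rw [ha]
    simp only [norm_div, norm_one, Complex.norm_natCast]
    exact le_rfl
  have hs : ∀ k l : ℕ, HasSum (fun y : PP => wt (1 + x) y / (y.2 + 1 : ℕ) *
      (ee (fr y) ((k - l : ℝ) * τ)).re)
      (FF a (((1 + x : ℝ) : ℂ) + ((k - l : ℝ) * τ : ℝ) * I)).re := by
    intro k l
    have hre : 1 < (((1 + x : ℝ) : ℂ) + ((k - l : ℝ) * τ : ℝ) * I).re := by
      rw [Complex.add_re, Complex.ofReal_re, Complex.re_ofReal_mul, Complex.I_re, mul_zero,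
        add_zero]
      exact hσ
    have h2 := Complex.hasSum_re (summable_tm hab hre).hasSum
    convert h2 using 1
    · funext y
      rw [tm_eq, ha]
      simp only
      have h3 : (1 / ((y.2 + 1 : ℕ) : ℂ) * (wt (1 + x) y : ℂ)) =
          ((wt (1 + x) y / (y.2 + 1 : ℕ) : ℝ) : ℂ) := by
        push_cast
        ring
      rw [h3, Complex.re_ofReal_mul]
    · rfl
  have hsum : HasSum (fun y : PP => wt (1 + x) y / (y.2 + 1 : ℕ) * ‖DK n τ y‖ ^ 2)
      (∑ k ∈ Finset.range n, ∑ l ∈ Finset.range n,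
        (FF a (((1 + x : ℝ) : ℂ) + ((k - l : ℝ) * τ : ℝ) * I)).re) := by
    have h2 := hasSum_sum (s := Finset.range n) fun k _ =>
      hasSum_sum (s := Finset.range n) fun l _ => hs k l
    convert h2 using 1
    funext y
    rw [sq_DK, Finset.mul_sum]
    refine Finset.sum_congr rfl fun k _ => ?_
    rw [Finset.mul_sum]
  refine ⟨hsum.summable, ?_⟩
  rw [hsum.tsum_eq]
  have hL : 0 ≤ Real.log 3 - Real.log x := by
    have h2 := Real.log_nonpos h0.le h1
    have h3 := Real.log_nonneg (by norm_num : (1 : ℝ) ≤ 3)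
    linarith
  have hdiag : ∀ k : ℕ, (FF a (((1 + x : ℝ) : ℂ) + ((k - k : ℝ) * τ : ℝ) * I)).re ≤
      Real.log 3 - Real.log x := by
    intro k
    have h2 := FF_zeta hσ 0
    rw [Complex.ofReal_zero, zero_mul, add_zero] at h2
    have h3 : (FF a (((1 + x : ℝ) : ℂ) + ((k - k : ℝ) * τ : ℝ) * I)).re = ZZ (1 + x) := by
      rw [sub_self, zero_mul, Complex.ofReal_zero, zero_mul, add_zero]
      have h4 := exp_ZZ hσ
      rw [← h2, Complex.norm_exp] at h4
      exact (Real.exp_injective h4).symm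
    rw [h3]
    exact ZZ_le h0 h1
  calc ∑ k ∈ Finset.range n, ∑ l ∈ Finset.range n,
        (FF a (((1 + x : ℝ) : ℂ) + ((k - l : ℝ) * τ : ℝ) * I)).re
      ≤ ∑ k ∈ Finset.range n, ∑ l ∈ Finset.range n,
        ((if k = l then Real.log 3 - Real.log x else 0) + C k l) := by
        refine Finset.sum_le_sum fun k _ => Finset.sum_le_sum fun l _ => ?_
        by_cases h : k = l
        · subst h
          rw [if_pos rfl]
          have := hdiag k
          have := hC k k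
          linarith
        · rw [if_neg h, zero_add]
          exact hCb k l x h0 h1 h
    _ = n * (Real.log 3 - Real.log x) + ∑ k ∈ Finset.range n, ∑ l ∈ Finset.range n, C k l := by
        simp_rw [Finset.sum_add_distrib, Finset.sum_ite_eq]
        congr 1
        rw [Finset.sum_congr rfl fun k hk => if_pos hk, Finset.sum_const, Finset.card_range,
          nsmul_eq_mul]

/-- **The large sieve at equally spaced heights.** -/
theorem spaced (hb : ∀ x, ‖b x‖ ≤ M / (x.2 + 1 : ℕ)) {n : ℕ} (hn : 1 ≤ n) {τ : ℝ} (hτ : τ ≠ 0) :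
    ∃ C : ℝ, 0 ≤ C ∧ ∀ x : ℝ, 0 < x → x ≤ 1 → ∀ t : ℝ,
      |∑ k ∈ Finset.range n, (FF b (((1 + x : ℝ) : ℂ) + (t + k * τ : ℝ) * I)).re| ≤
        M * (Real.sqrt n * (Real.log 3 - Real.log x) + C) := by
  have hM := M_nonneg hb
  obtain ⟨C, hC, h⟩ := weighted n hτ
  have hn0 : (0 : ℝ) < n := by exact_mod_cast hn
  have hsq : 0 < Real.sqrt n := Real.sqrt_pos.2 hn0
  refine ⟨C / Real.sqrt n, by positivity, fun x h0 h1 t => ?_⟩
  obtain ⟨hs, hle⟩ := h x h0 h1
  have hσ : 1 < 1 + x := by linarith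
  have hw := summable_wt hσ
  have hre : ∀ u : ℝ, 1 < (((1 + x : ℝ) : ℂ) + (u : ℂ) * I).re := by
    intro u
    rw [Complex.add_re, Complex.ofReal_re, Complex.re_ofReal_mul, Complex.I_re, mul_zero,
      add_zero]
    exact hσ
  have hsum : HasSum (fun y : PP => (b y * (wt (1 + x) y : ℂ)) * ee (fr y) t * DK n τ y)
      (∑ k ∈ Finset.range n, FF b (((1 + x : ℝ) : ℂ) + (t + k * τ : ℝ) * I)) := by
    have h2 := hasSum_sum (s := Finset.range n) fun k _ =>
      (summable_tm hb (hre (t + k * τ))).hasSum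
    convert h2 using 1
    · funext y
      unfold DK
      rw [Finset.mul_sum]
      refine Finset.sum_congr rfl fun k _ => ?_
      rw [tm_eq, ee_add]
      ring
    · rfl
  have hmaj : HasSum (fun y : PP => M * ((Real.sqrt n * (wt (1 + x) y / (y.2 + 1 : ℕ)) +
      (wt (1 + x) y / (y.2 + 1 : ℕ) * ‖DK n τ y‖ ^ 2) / Real.sqrt n) / 2))
      (M * ((Real.sqrt n * ZZ (1 + x) + (∑' y : PP, wt (1 + x) y / (y.2 + 1 : ℕ) *
        ‖DK n τ y‖ ^ 2) / Real.sqrt n) / 2)) :=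
    (((hw.hasSum.mul_left _).add (hs.hasSum.div_const _)).div_const 2).mul_left M
  have hpt : ∀ y : PP, ‖(b y * (wt (1 + x) y : ℂ)) * ee (fr y) t * DK n τ y‖ ≤
      M * ((Real.sqrt n * (wt (1 + x) y / (y.2 + 1 : ℕ)) +
      (wt (1 + x) y / (y.2 + 1 : ℕ) * ‖DK n τ y‖ ^ 2) / Real.sqrt n) / 2) := by
    intro y
    rw [norm_mul, norm_mul, norm_ee, mul_one, norm_mul, Complex.norm_real,
      Real.norm_of_nonneg (wt_nonneg _ y)]
    have hw0 : 0 ≤ wt (1 + x) y / (y.2 + 1 : ℕ) := div_nonneg (wt_nonneg _ y) (by positivity)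
    have h2 : ‖b y‖ * wt (1 + x) y ≤ M * (wt (1 + x) y / (y.2 + 1 : ℕ)) := by
      refine (mul_le_mul_of_nonneg_right (hb y) (wt_nonneg _ y)).trans (le_of_eq ?_)
      ring
    have h3 : ‖DK n τ y‖ ≤ (Real.sqrt n + ‖DK n τ y‖ ^ 2 / Real.sqrt n) / 2 := by
      rw [le_div_iff₀ two_pos, ← sub_nonneg]
      have h4 : Real.sqrt n + ‖DK n τ y‖ ^ 2 / Real.sqrt n - ‖DK n τ y‖ * 2 =
          (Real.sqrt n - ‖DK n τ y‖) ^ 2 / Real.sqrt n := by
        field_simp
        ring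
      rw [h4]
      positivity
    calc ‖b y‖ * wt (1 + x) y * ‖DK n τ y‖
        ≤ (M * (wt (1 + x) y / (y.2 + 1 : ℕ))) *
          ((Real.sqrt n + ‖DK n τ y‖ ^ 2 / Real.sqrt n) / 2) :=
          mul_le_mul h2 h3 (norm_nonneg _) (mul_nonneg hM hw0)
      _ = _ := by ring
  have h2 := tsum_of_norm_bounded hmaj hpt
  rw [hsum.tsum_eq] at h2
  have h3 := (Complex.abs_re_le_norm _).trans h2
  rw [Complex.re_sum] at h3
  refine h3.trans (mul_le_mul_of_nonneg_left ?_ hM)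
  have h4 := ZZ_le h0 h1
  have h5 : (∑' y : PP, wt (1 + x) y / (y.2 + 1 : ℕ) * ‖DK n τ y‖ ^ 2) / Real.sqrt n ≤
      Real.sqrt n * (Real.log 3 - Real.log x) + C / Real.sqrt n := by
    rw [div_le_iff₀ hsq, add_mul, div_mul_cancel₀ _ hsq.ne']
    refine hle.trans ?_
    have h6 : Real.sqrt n * Real.sqrt n = n := Real.mul_self_sqrt hn0.le
    have h7 : Real.sqrt n * (Real.log 3 - Real.log x) * Real.sqrt n =
        (Real.sqrt n * Real.sqrt n) * (Real.log 3 - Real.log x) := by ring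
    rw [h7, h6]
  have h6 : Real.sqrt n * ZZ (1 + x) ≤ Real.sqrt n * (Real.log 3 - Real.log x) :=
    mul_le_mul_of_nonneg_left h4 hsq.le
  have h7 : 0 ≤ C / Real.sqrt n := by positivity
  linarith

/-- **The size near the edge.** -/
theorem small_order (hb : ∀ x, ‖b x‖ ≤ M / (x.2 + 1 : ℕ)) {τ : ℝ} (hτ : τ ≠ 0)
    (hA : Mostly A (dl b τ)) {ε : ℝ} (hε : 0 < ε) :
    ∃ C : ℝ, ∀ x : ℝ, 0 < x → x ≤ 1 → ∀ t : ℝ,
      |(FF b (((1 + x : ℝ) : ℂ) + (t : ℂ) * I)).re| ≤ ε * (-Real.log x) + C := by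
  have hM := M_nonneg hb
  obtain ⟨n, hn⟩ := exists_nat_gt ((M / ε) ^ 2 + 1)
  have hn1 : 1 ≤ n := by
    have h1 : (0 : ℝ) ≤ (M / ε) ^ 2 := by positivity
    have h2 : (1 : ℝ) < n := by linarith
    have h3 : 1 < n := by exact_mod_cast h2
    omega
  have hn0 : (0 : ℝ) < n := by exact_mod_cast hn1
  obtain ⟨C, hC, h⟩ := spaced hb hn1 hτ
  set D : ℝ := A + 2 * M with hD
  have hD0 : 0 ≤ D := (abs_nonneg _).trans (shift_bound hb hA (s := 2) (by norm_num))
  have hMn : M ≤ ε * Real.sqrt n := by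
    have h1 : M / ε ≤ Real.sqrt n := by
      refine Real.le_sqrt_of_sq_le ?_
      linarith
    rwa [div_le_iff₀ hε, mul_comm] at h1
  have hsq : 0 < Real.sqrt n := Real.sqrt_pos.2 hn0
  refine ⟨ε * Real.log 3 + (M * C + n * (n * D)) / n, fun x h0 h1 t => ?_⟩
  set f : ℕ → ℝ := fun k => (FF b (((1 + x : ℝ) : ℂ) + (t + k * τ : ℝ) * I)).re with hf
  have hstep : ∀ k, |f (k + 1) - f k| ≤ D := by
    intro k
    have hre : 1 < (((1 + x : ℝ) : ℂ) + (t + k * τ : ℝ) * I).re := by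
      rw [Complex.add_re, Complex.ofReal_re, Complex.re_ofReal_mul, Complex.I_re, mul_zero,
        add_zero]
      linarith
    have h2 := shift_bound hb hA hre
    have h3 : ((1 + x : ℝ) : ℂ) + (t + k * τ : ℝ) * I + τ * I =
        ((1 + x : ℝ) : ℂ) + (t + (k + 1 : ℕ) * τ : ℝ) * I := by
      push_cast
      ring
    rw [h3] at h2
    exact h2
  have hk : ∀ k, |f k - f 0| ≤ k * D := by
    intro k
    induction k with
    | zero => simp
    | succ k ih =>
      have h2 := hstep k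
      have h3 : f (k + 1) - f 0 = (f (k + 1) - f k) + (f k - f 0) := by ring
      rw [h3]
      refine (abs_add_le _ _).trans ?_
      push_cast
      linarith
  have h2 : |n * f 0 - ∑ k ∈ Finset.range n, f k| ≤ n * (n * D) := by
    have h3 : n * f 0 - ∑ k ∈ Finset.range n, f k = ∑ k ∈ Finset.range n, (f 0 - f k) := by
      rw [Finset.sum_sub_distrib, Finset.sum_const, Finset.card_range, nsmul_eq_mul]
    rw [h3]
    refine (Finset.abs_sum_le_sum_abs _ _).trans ?_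
    have h4 : ∀ k ∈ Finset.range n, |f 0 - f k| ≤ n * D := by
      intro k hkn
      rw [abs_sub_comm]
      refine (hk k).trans (mul_le_mul_of_nonneg_right ?_ hD0)
      exact_mod_cast (Finset.mem_range.1 hkn).le
    refine (Finset.sum_le_sum h4).trans ?_
    rw [Finset.sum_const, Finset.card_range, nsmul_eq_mul]
  have h3 := h x h0 h1 t
  have h4 : n * |f 0| ≤ M * (Real.sqrt n * (Real.log 3 - Real.log x) + C) + n * (n * D) := by
    have h5 : n * |f 0| = |n * f 0| := by rw [abs_mul, abs_of_pos hn0]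
    rw [h5]
    have h6 : (n : ℝ) * f 0 = (n * f 0 - ∑ k ∈ Finset.range n, f k) +
        ∑ k ∈ Finset.range n, f k := by ring
    rw [h6]
    refine (abs_add_le _ _).trans ?_
    linarith
  have hL : 0 ≤ Real.log 3 - Real.log x := by
    have h2 := Real.log_nonpos h0.le h1
    have h3 := Real.log_nonneg (by norm_num : (1 : ℝ) ≤ 3)
    linarith
  have h5 : M * (Real.sqrt n * (Real.log 3 - Real.log x)) ≤
      n * (ε * (Real.log 3 - Real.log x)) := by
    have h6 : Real.sqrt n * Real.sqrt n = n := Real.mul_self_sqrt hn0.le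
    have h7 : M * (Real.sqrt n * (Real.log 3 - Real.log x)) ≤
        (ε * Real.sqrt n) * (Real.sqrt n * (Real.log 3 - Real.log x)) :=
      mul_le_mul_of_nonneg_right hMn (by positivity)
    have h8 : (ε * Real.sqrt n) * (Real.sqrt n * (Real.log 3 - Real.log x)) =
        (Real.sqrt n * Real.sqrt n) * (ε * (Real.log 3 - Real.log x)) := by ring
    rw [h8, h6] at h7
    exact h7
  have h6 : |f 0| ≤ ε * (Real.log 3 - Real.log x) + (M * C + n * (n * D)) / n := by
    rw [← sub_le_iff_le_add', le_div_iff₀ hn0]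
    have h7 : (|f 0| - ε * (Real.log 3 - Real.log x)) * n =
        n * |f 0| - n * (ε * (Real.log 3 - Real.log x)) := by ring
    rw [h7]
    linarith
  have h7 : f 0 = (FF b (((1 + x : ℝ) : ℂ) + (t : ℂ) * I)).re := by
    rw [hf]
    simp
  rw [← h7]
  linarith

end Pool.Agent.U597.EX
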